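import Pool.Agent.TH679.PD.Flow

/-!
Stacks of butterfly networks: a flow with few open nodes is long.
-/

set_option autoImplicit false

namespace Pool.Agent.TH679.PD

open Finset
open Pool.Agent.W994.DE (Dag)
open Pool.Agent.W994.DE.Dag

theorem fin_ite {c : ℕ} (s : Fin (if c = 0 then 0 else 2)) : c ≠ 0 ∧ s.val < 2 := by
  have h := s.isLt
  generalize s.val = v at h
  split_ifs at h with hc
  · omega
  · exact ⟨hc, h⟩

/-- The layered butterfly graph: the nodes are the pairs `(t, a)` of a level `t ≤ H` and a word `a`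
of `d` bits. The children of `(t + 1, a)` are the two nodes `(t, b)` such that `b` agrees with `a`
except possibly at the position `t mod d`. -/
def bfly (d H : ℕ) [NeZero d] : Dag where
  V := Fin (H + 1) × (Fin d → Bool)
  deg := fun i => if i.1.val = 0 then 0 else 2
  kid := fun i s => (⟨i.1.val - 1, by omega⟩,
    Function.update i.2 (Fin.ofNat d (i.1.val - 1)) (decide (s.val = 1)))
  rank := fun i => i.1.val
  rank_lt := fun i s => by
    have h := fin_ite s
    show i.1.val - 1 < i.1.val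
    omega

/-- `mix b a s`: the last `s` positions as in `b`, the others as in `a`. -/
def mix {d : ℕ} (b a : Fin d → Bool) (s : ℕ) : Fin d → Bool :=
  fun i => if d ≤ i.val + s then b i else a i

theorem mix_zero {d : ℕ} (b a : Fin d → Bool) : mix b a 0 = a := by
  funext i
  unfold mix
  rw [if_neg]
  have := i.isLt
  omega

theorem mix_d {d : ℕ} (b a : Fin d → Bool) : mix b a d = b := by
  funext i
  unfold mix
  rw [if_pos (by omega)]

theorem mix_inj {d : ℕ} {b a b' a' : Fin d → Bool} {s : ℕ} (h1 : mix b a s = mix b' a' s)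
    (h2 : mix a b s = mix a' b' s) : a = a' ∧ b = b' := by
  constructor <;> funext i
  · by_cases h : d ≤ i.val + s
    · have := congrFun h2 i
      unfold mix at this
      rwa [if_pos h, if_pos h] at this
    · have := congrFun h1 i
      unfold mix at this
      rwa [if_neg h, if_neg h] at this
  · by_cases h : d ≤ i.val + s
    · have := congrFun h1 i
      unfold mix at this
      rwa [if_pos h, if_pos h] at this
    · have := congrFun h2 i
      unfold mix at this
      rwa [if_neg h, if_neg h] at this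

variable {d H : ℕ} [NeZero d]

/-- the node `(t, a)` -/
def nd (t : ℕ) (ht : t < H + 1) (a : Fin d → Bool) : (bfly d H).V :=
  ((⟨t, ht⟩, a) : Fin (H + 1) × (Fin d → Bool))

theorem nd_inj {t t' : ℕ} {ht : t < H + 1} {ht' : t' < H + 1} {a a' : Fin d → Bool}
    (h : nd t ht a = nd t' ht' a') : t = t' ∧ a = a' := by
  have h1 : ((⟨t, ht⟩, a) : Fin (H + 1) × (Fin d → Bool)) = (⟨t', ht'⟩, a') := h
  rw [Prod.mk.injEq, Fin.mk.injEq] at h1
  exact h1

theorem kid_exists (t : ℕ) (ht : t + 1 < H + 1) (a : Fin d → Bool) (β : Bool) :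
    ∃ s, (bfly d H).kid (nd (t + 1) ht a) s =
      nd t (by omega) (Function.update a (Fin.ofNat d t) β) := by
  have hdeg : (bfly d H).deg (nd (t + 1) ht a) = 2 := rfl
  refine ⟨⟨if β then 1 else 0, ?_⟩, ?_⟩
  · rw [hdeg]
    split_ifs <;> omega
  · cases β <;> rfl

theorem mix_succ (b a : Fin d → Bool) {s t : ℕ} (hs : s < d) (ht : t % d = d - 1 - s) :
    Function.update (mix b a s) (Fin.ofNat d t) (b (Fin.ofNat d t)) = mix b a (s + 1) := by
  have hv : (Fin.ofNat d t).val = d - 1 - s := ht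
  funext i
  by_cases hi : i = Fin.ofNat d t
  · rw [hi, Function.update_self]
    unfold mix
    rw [if_pos (by omega)]
  · rw [Function.update_of_ne hi]
    have hi' : i.val ≠ d - 1 - s := by
      intro h
      exact hi (Fin.ext (h.trans hv.symm))
    unfold mix
    by_cases h1 : d ≤ i.val + s
    · rw [if_pos h1, if_pos (by omega)]
    · rw [if_neg h1, if_neg (by omega)]

theorem walk {r : (bfly d H).V} {L q : ℕ} {R P : ℕ → Finset (bfly d H).V}
    (hF : Flow (bfly d H) r L q R P) {a₀ b₀ : ℕ} (hab : a₀ ≤ b₀) (hb : b₀ ≤ L) {j : ℕ}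
    (hT : (j + 1) * d < H + 1) {a b : Fin d → Bool}
    (ha : nd ((j + 1) * d) hT a ∈ M R a₀ b₀)
    (hP : ∀ s, 1 ≤ s → s ≤ d → nd ((j + 1) * d - s) (by omega) (mix b a s) ∉ P a₀ ∪ P b₀) :
    nd (j * d) (by rw [add_mul] at hT; omega) b ∈ M R a₀ b₀ := by
  have key : ∀ s, s ≤ d → nd ((j + 1) * d - s) (by omega) (mix b a s) ∈ M R a₀ b₀ := by
    intro s
    induction s with
    | zero =>
      intro _
      rw [mix_zero]
      exact ha
    | succ s ih =>
      intro hs
      have h1 := ih (by omega)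
      have h2 : (j + 1) * d = j * d + d := by ring
      have h3 : (j + 1) * d - s = (j + 1) * d - (s + 1) + 1 := by omega
      have h4 : ((j + 1) * d - (s + 1)) % d = d - 1 - s := by
        have h5 : (j + 1) * d - (s + 1) = (d - 1 - s) + j * d := by omega
        rw [h5, Nat.add_mul_mod_self_right, Nat.mod_eq_of_lt (by omega)]
      obtain ⟨c, hc⟩ := kid_exists (H := H) ((j + 1) * d - (s + 1)) (by omega) (mix b a s)
        (b (Fin.ofNat d ((j + 1) * d - (s + 1))))
      rw [mix_succ b a (by omega) h4] at hc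
      have h6 : nd ((j + 1) * d - s) (by omega) (mix b a s) =
          nd (H := H) ((j + 1) * d - (s + 1) + 1) (by omega) (mix b a s) := by
        congr 1
      rw [h6] at h1
      have h7 := hP (s + 1) (by omega) hs
      rw [mem_union, not_or] at h7
      rw [← hc] at h7 ⊢
      exact hF.keep a₀ b₀ hab hb _ h1 c h7.1 h7.2
  have h := key d le_rfl
  rw [mix_d] at h
  have h2 : (j + 1) * d - d = j * d := by
    rw [add_mul, one_mul]
    omega
  have h3 : nd (H := H) ((j + 1) * d - d) (by omega) b =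
      nd (j * d) (by rw [add_mul] at hT; omega) b := by
    congr 1
  rw [← h3]
  exact h

/-- the words `a` such that `(t, a)` is loaded in the interval -/
def ld (R : ℕ → Finset (bfly d H).V) (a₀ b₀ t : ℕ) (ht : t < H + 1) : Finset (Fin d → Bool) :=
  univ.filter fun a => nd t ht a ∈ M R a₀ b₀

theorem mem_ld {R : ℕ → Finset (bfly d H).V} {a₀ b₀ t : ℕ} {ht : t < H + 1} {a : Fin d → Bool} :
    a ∈ ld R a₀ b₀ t ht ↔ nd t ht a ∈ M R a₀ b₀ := by
  simp [ld]

theorem many {r : (bfly d H).V} {L q : ℕ} {R P : ℕ → Finset (bfly d H).V}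
    (hF : Flow (bfly d H) r L q R P) {a₀ b₀ : ℕ} (hab : a₀ ≤ b₀) (hb : b₀ ≤ L) {j : ℕ}
    (hT : (j + 1) * d < H + 1) (hj : j * d < H + 1) :
    (ld R a₀ b₀ ((j + 1) * d) hT).card * (univ \ ld R a₀ b₀ (j * d) hj).card ≤ 2 * q * 2 ^ d := by
  classical
  set O := ld R a₀ b₀ ((j + 1) * d) hT
  set U := univ \ ld R a₀ b₀ (j * d) hj
  have hex : ∀ x : (Fin d → Bool) × (Fin d → Bool), ∃ s, x ∈ O ×ˢ U →
      1 ≤ s ∧ s ≤ d ∧ nd ((j + 1) * d - s) (by omega) (mix x.2 x.1 s) ∈ P a₀ ∪ P b₀ := by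
    intro x
    by_cases hx : x ∈ O ×ˢ U
    · rw [mem_product, mem_sdiff] at hx
      by_contra hno
      push Not at hno
      refine hx.2.2 (mem_ld.2 ?_)
      exact walk hF hab hb hT (mem_ld.1 hx.1) fun s h1 h2 => (hno s).2 h1 h2
    · exact ⟨0, fun h => absurd h hx⟩
  choose s hs using hex
  have h1 : (O ×ˢ U).card ≤ ((P a₀ ∪ P b₀) ×ˢ (univ : Finset (Fin d → Bool))).card := by
    refine Finset.card_le_card_of_injOn
      (fun x => (nd ((j + 1) * d - s x) (by omega) (mix x.2 x.1 (s x)), mix x.1 x.2 (s x))) ?_ ?_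
    · intro x hx
      rw [mem_coe, mem_product]
      exact ⟨(hs x hx).2.2, mem_univ _⟩
    · intro x hx y hy hxy
      simp only [Prod.mk.injEq] at hxy
      obtain ⟨e1, e2⟩ := hxy
      obtain ⟨e3, e4⟩ := nd_inj e1
      have hx' := hs x hx
      have hy' := hs y hy
      have h2 : (j + 1) * d = j * d + d := by ring
      have e5 : s x = s y := by omega
      rw [← e5] at e4 e2
      obtain ⟨e6, e7⟩ := mix_inj e4 e2
      exact Prod.ext e6 e7
  rw [card_product, card_product, card_univ, Fintype.card_fun, Fintype.card_bool,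
    Fintype.card_fin] at h1
  refine h1.trans (Nat.mul_le_mul_right _ ?_)
  have h2 := card_union_le (P a₀) (P b₀)
  have h3 := hF.few a₀ (hab.trans hb)
  have h4 := hF.few b₀ hb
  omega

theorem ld_union (R : ℕ → Finset (bfly d H).V) {a₀ c₀ b₀ t : ℕ} (h1 : a₀ ≤ c₀) (h2 : c₀ ≤ b₀)
    (ht : t < H + 1) : ld R a₀ b₀ t ht = ld R a₀ c₀ t ht ∪ ld R c₀ b₀ t ht := by
  ext a
  rw [mem_union, mem_ld, mem_ld, mem_ld, M_union h1 h2, mem_union]

theorem ld_one {r : (bfly d H).V} {L q : ℕ} {R P : ℕ → Finset (bfly d H).V}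
    (hF : Flow (bfly d H) r L q R P) (a₀ t : ℕ) (ht : t < H + 1) :
    (ld R a₀ (a₀ + 1) t ht).card ≤ 1 := by
  rw [Finset.card_le_one]
  intro a ha b hb
  rw [mem_ld, mem_M] at ha hb
  obtain ⟨s, h1, h2, h3⟩ := ha
  obtain ⟨s', h1', h2', h3'⟩ := hb
  have e1 : s' = s := by omega
  rw [e1] at h3'
  exact (nd_inj (Finset.card_le_one.1 (hF.one s) _ h3 _ h3')).2

theorem ld_empty (R : ℕ → Finset (bfly d H).V) (a₀ t : ℕ) (ht : t < H + 1) :
    ld R a₀ a₀ t ht = ∅ := by
  ext a
  rw [mem_ld, mem_M]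
  constructor
  · rintro ⟨s, h1, h2, _⟩
    omega
  · intro h
    exact absurd h (notMem_empty _)

/-- an interval can be cut after `m` loads -/
theorem ld_cut {r : (bfly d H).V} {L q : ℕ} {R P : ℕ → Finset (bfly d H).V}
    (hF : Flow (bfly d H) r L q R P) {a₀ t : ℕ} (ht : t < H + 1) (m : ℕ) :
    ∀ b₀, a₀ ≤ b₀ → m ≤ (ld R a₀ b₀ t ht).card → ∃ c₀, a₀ ≤ c₀ ∧ c₀ ≤ b₀ ∧
      (ld R a₀ c₀ t ht).card = m := by
  intro b₀ hab
  induction b₀, hab using Nat.le_induction with
  | base =>
    intro h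
    rw [ld_empty, card_empty] at h
    exact ⟨a₀, le_rfl, le_rfl, by rw [ld_empty, card_empty]; omega⟩
  | succ b₀ hab ih =>
    intro h
    by_cases h1 : m ≤ (ld R a₀ b₀ t ht).card
    · obtain ⟨c₀, g1, g2, g3⟩ := ih h1
      exact ⟨c₀, g1, by omega, g3⟩
    · refine ⟨b₀ + 1, by omega, le_rfl, ?_⟩
      rw [ld_union R hab (show b₀ ≤ b₀ + 1 by omega)] at h ⊢
      have h2 := card_union_le (ld R a₀ b₀ t ht) (ld R b₀ (b₀ + 1) t ht)
      have h3 := ld_one hF b₀ t ht
      omega

theorem ld_le {r : (bfly d H).V} {L q : ℕ} {R P : ℕ → Finset (bfly d H).V}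
    (hF : Flow (bfly d H) r L q R P) {a₀ t : ℕ} (ht : t < H + 1) :
    ∀ b₀, a₀ ≤ b₀ → (ld R a₀ b₀ t ht).card ≤ b₀ - a₀ := by
  intro b₀ hab
  induction b₀, hab using Nat.le_induction with
  | base =>
    rw [ld_empty, card_empty]
    exact Nat.zero_le _
  | succ b₀ hab ih =>
    rw [ld_union R hab (show b₀ ≤ b₀ + 1 by omega)]
    have h2 := card_union_le (ld R a₀ b₀ t ht) (ld R b₀ (b₀ + 1) t ht)
    have h3 := ld_one hF b₀ t ht
    omega

/-- The recursion: if `4 q` nodes of the level `j d` are loaded in an interval, then the interval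
has length at least `2 ^ j * 4 q`. -/
theorem long {r : (bfly d H).V} {L q : ℕ} {R P : ℕ → Finset (bfly d H).V}
    (hF : Flow (bfly d H) r L q R P) (hq : 1 ≤ q) (hn : 16 * q ≤ 2 ^ d) : ∀ (j : ℕ)
    (hj : j * d < H + 1) (a₀ b₀ : ℕ), a₀ ≤ b₀ → b₀ ≤ L → 4 * q ≤ (ld R a₀ b₀ (j * d) hj).card →
      2 ^ j * (4 * q) ≤ b₀ - a₀ := by
  intro j
  induction j with
  | zero =>
    intro hj a₀ b₀ hab hb h
    rw [pow_zero, one_mul]
    exact h.trans (ld_le hF hj b₀ hab)
  | succ j ih =>
    intro hj a₀ b₀ hab hb h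
    have hj' : j * d < H + 1 := by rw [add_mul] at hj; omega
    have h1 := many hF hab hb hj hj'
    set U := univ \ ld R a₀ b₀ (j * d) hj' with hU
    have h2 : 4 * q * U.card ≤ 2 * q * 2 ^ d := (Nat.mul_le_mul_right _ h).trans h1
    have h3 : 2 * U.card ≤ 2 ^ d := by
      have : 2 * q * (2 * U.card) ≤ 2 * q * 2 ^ d := by
        calc 2 * q * (2 * U.card) = 4 * q * U.card := by ring
          _ ≤ _ := h2
      exact Nat.le_of_mul_le_mul_left this (by omega)
    have h4 : U.card + (ld R a₀ b₀ (j * d) hj').card = 2 ^ d := by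
      have := Finset.card_sdiff_add_card_eq_card (subset_univ (ld R a₀ b₀ (j * d) hj'))
      rw [card_univ, Fintype.card_fun, Fintype.card_bool, Fintype.card_fin] at this
      exact this
    have h5 : 8 * q ≤ (ld R a₀ b₀ (j * d) hj').card := by omega
    obtain ⟨c₀, g1, g2, g3⟩ := ld_cut hF hj' (4 * q) b₀ hab (by omega)
    have h6 := card_union_le (ld R a₀ c₀ (j * d) hj') (ld R c₀ b₀ (j * d) hj')
    rw [← ld_union R g1 g2] at h6
    have h7 := ih hj' a₀ c₀ g1 (g2.trans hb) (by omega)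
    have h8 := ih hj' c₀ b₀ g2 hb (by omega)
    have h9 : 2 ^ (j + 1) * (4 * q) = 2 ^ j * (4 * q) + 2 ^ j * (4 * q) := by ring
    omega

/-- A flow with few open nodes on a stack of `j + 1` butterflies is long. -/
theorem flow_long {j : ℕ} {L q : ℕ} {R P : ℕ → Finset (bfly d ((j + 1) * d)).V}
    (hF : Flow (bfly d ((j + 1) * d)) (nd ((j + 1) * d) (Nat.lt_succ_self _) fun _ => false)
      L q R P) (hq : 1 ≤ q) (hn : 16 * q ≤ 2 ^ d) : 2 ^ j * (4 * q) ≤ L := by
  have hj : j * d < (j + 1) * d + 1 := by rw [add_mul]; omega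
  have h := long hF hq hn j hj 0 L (Nat.zero_le _) le_rfl ?_
  · omega
  · have h1 : ld R 0 L (j * d) hj = univ := by
      ext b
      rw [mem_ld]
      refine ⟨fun _ => mem_univ _, fun _ => ?_⟩
      refine walk hF (Nat.zero_le _) le_rfl (Nat.lt_succ_self _) hF.top ?_
      intro s _ _
      rw [hF.zero, hF.last, union_empty]
      exact notMem_empty _
    rw [h1, card_univ, Fintype.card_fun, Fintype.card_bool, Fintype.card_fin]
    omega

end Pool.Agent.TH679.PD
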