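import Pool.Agent.H564R3.PW.Defs
import Pool.Agent.W994.DE.Dag

/-!
Derivations in acyclic AND/OR graphs: definitions.
-/

set_option autoImplicit false

namespace Pool.Agent.TH679.PD

open Finset
open Pool.Agent.H564R3.PW (Instr exec)
open Pool.Agent.W994.DE (Dag)

/-- The rules over the graph `G` with `k` letters: a node `i`, a letter `u` for it and letters `φ a`
for its children. The input assigns a weight to each rule. -/
abbrev Rule (G : Dag) (k : ℕ) : Type := Σ i : G.V, Fin k × (Fin (G.deg i) → Fin k)

/-- The sum over all derivation trees of `(i, u)` of the product of the weights of the rules that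
are used. A derivation tree of `(i, u)` consists of a rule `(i, u, φ)` and, for each child `a`, of a
derivation tree of `(a-th child of i, φ a)`. Over the tropical semiring (`+` is `min`, `*` is `+`)
this is the minimum weight of a derivation tree. -/
def deriv {G : Dag} {k : ℕ} {R : Type} [CommSemiring R] (w : Rule G k → R) (i : G.V) (u : Fin k) :
    R :=
  ∑ φ : Fin (G.deg i) → Fin k, w ⟨i, u, φ⟩ * ∏ a, deriv w (G.kid i a) (φ a)
termination_by G.rank i
decreasing_by exact G.rank_lt i a

theorem deriv_eq {G : Dag} {k : ℕ} {R : Type} [CommSemiring R] (w : Rule G k → R) (i : G.V)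
    (u : Fin k) : deriv w i u =
      ∑ φ : Fin (G.deg i) → Fin k, w ⟨i, u, φ⟩ * ∏ a, deriv w (G.kid i a) (φ a) := by
  rw [deriv]

end Pool.Agent.TH679.PD
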