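import Pool.Agent.TH679.PD.Run

/-!
The sequence of the rules that are loaded, for a labelling with few open nodes.
-/

set_option autoImplicit false

namespace Pool.Agent.TH679.PD

open Finset
open Pool.Agent.H564R3.PW (Instr exec syms)
open Pool.Agent.W994.DE (Dag)
open Pool.Agent.W994.DE.Dag

variable {G : Dag} {k : ℕ}

/-- A run of length `L` on the graph `G`, with the top `r`: in step `t` the nodes in `R t` (at most
one) are loaded, `P t` is the set of the open nodes before step `t`. If a node is loaded in some
interval of time, then all its children are loaded in this interval or open at one of its ends. -/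
structure Flow (G : Dag) (r : G.V) (L q : ℕ) (R P : ℕ → Finset G.V) : Prop where
  one : ∀ t, (R t).card ≤ 1
  few : ∀ t ≤ L, (P t).card ≤ q
  zero : P 0 = ∅
  last : P L = ∅
  stop : ∀ t, L ≤ t → R t = ∅
  top : r ∈ M R 0 L
  keep : ∀ a b, a ≤ b → b ≤ L → ∀ i ∈ M R a b, ∀ s, G.kid i s ∉ P a → G.kid i s ∉ P b →
    G.kid i s ∈ M R a b

theorem exists_flow {R ρ : Type} [Zero R] [Fintype ρ] [DecidableEq ρ] {r : G.V} {u₀ : Fin k}
    {p : List (Instr R (Rule G k) ρ)} {o : ρ} (hT : Good (syms p o) r u₀) {q : ℕ}
    (hq : (p.length + 1) * 2 ^ Fintype.card ρ < k ^ (q + 1)) :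
    ∃ R P : ℕ → Finset G.V, Flow G r p.length q R P := by
  classical
  obtain ⟨lam, hl, D, ⟨h1, h2, h3, h4, h5⟩, hfew⟩ := exists_lam hT hq
  set L := p.length with hL
  set m : ℕ → G.V → ℕ := fun t i => tot (D t) (xl lam i) with hm
  have hmono1 : ∀ t < L, ∀ i, m t i ≤ m (t + 1) i := by
    intro t ht i
    obtain ⟨y, hy, _⟩ := h5 t ht
    show tot (D t) (xl lam i) ≤ tot (D (t + 1)) (xl lam i)
    rw [hy, Pi.add_apply]
    omega
  have hmono : ∀ a b, a ≤ b → b ≤ L → ∀ i, m a i ≤ m b i := by
    intro a b hab hb i
    induction b, hab using Nat.le_induction with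
    | base => exact le_rfl
    | succ b hab ih => exact (ih (by omega)).trans (hmono1 b (by omega) i)
  set Rr : ℕ → Finset G.V := fun t =>
    if t < L then univ.filter (fun i => m t i < m (t + 1) i) else ∅ with hRr
  have hRmem : ∀ t i, i ∈ Rr t ↔ t < L ∧ m t i < m (t + 1) i := by
    intro t i
    rw [hRr]
    dsimp only
    by_cases ht : t < L
    · rw [if_pos ht, mem_filter]
      exact ⟨fun h => ⟨ht, h.2⟩, fun h => ⟨mem_univ _, h.2⟩⟩
    · rw [if_neg ht]
      exact ⟨fun h => absurd h (Finset.notMem_empty _), fun h => absurd h.1 ht⟩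
  have hMmem : ∀ a b, a ≤ b → b ≤ L → ∀ i, i ∈ M Rr a b ↔ m a i < m b i := by
    intro a b hab hb i
    rw [mem_M]
    constructor
    · rintro ⟨t, ht1, ht2, ht3⟩
      rw [hRmem] at ht3
      have e1 := hmono a t ht1 (by omega) i
      have e2 := hmono (t + 1) b (by omega) hb i
      omega
    · intro hlt
      by_contra hno
      push Not at hno
      have hall : ∀ c, a ≤ c → c ≤ b → m c i = m a i := by
        intro c hac
        induction c, hac using Nat.le_induction with
        | base => intro _; rfl
        | succ c hac ih =>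
          intro hcb
          have e1 := hno c hac (by omega)
          rw [hRmem] at e1
          have e2 := hmono1 c (by omega) i
          have e3 := ih (by omega)
          have e4 : ¬ m c i < m (c + 1) i := fun h => e1 ⟨by omega, h⟩
          omega
      have := hall b hab le_rfl
      omega
  have hsupp : ∀ t ≤ L, ∀ e ∈ D t, Supp lam e.2 := fun t ht e he => use_supp (h4 t ht e he)
  have hend : ∀ i, m L i = cnt G i r := by
    intro i
    show tot (D L) (xl lam i) = _
    rw [h1, Mon_xl]
  refine ⟨Rr, fun t => opn k r (D t), ?_, hfew, ?_, ?_, ?_, ?_, ?_⟩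
  · intro t
    rw [Finset.card_le_one]
    intro i hi j hj
    rw [hRmem] at hi hj
    obtain ⟨y, hy, hy2⟩ := h5 t hi.1
    have g : ∀ i, m t i < m (t + 1) i → ∃ s, p[t]? = some (.load s (xl lam i)) := by
      intro i hi
      refine hy2 _ ?_
      have hi' : tot (D t) (xl lam i) < tot (D (t + 1)) (xl lam i) := hi
      rw [hy, Pi.add_apply] at hi'
      omega
    obtain ⟨s, hs⟩ := g i hi.2
    obtain ⟨s', hs'⟩ := g j hj.2
    rw [hs] at hs'
    simp only [Option.some.injEq, Instr.load.injEq] at hs'
    exact xl_inj hs'.2
  · rw [h2]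
    ext j
    rw [mem_opn]
    simp
  · ext j
    rw [mem_opn, h3]
    constructor
    · rintro ⟨hj, e, he, v, hv⟩
      exfalso
      rw [List.mem_singleton] at he
      subst he
      apply hv
      dsimp only
      rw [bal_supp (Mon_supp lam r)]
      by_cases hjv : lam j = v
      · rw [if_pos hjv, sub_eq_zero]
        simp_rw [Mon_xl]
        have := cnt_step j r
        rw [if_neg (fun h => hj h.symm), zero_add] at this
        exact_mod_cast this
      · rw [if_neg hjv]
    · intro h
      exact absurd h (Finset.notMem_empty _)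
  · intro t ht
    ext i
    rw [hRmem]
    constructor
    · intro h
      omega
    · intro h
      exact absurd h (Finset.notMem_empty _)
  · rw [hMmem 0 L (Nat.zero_le _) le_rfl, hend]
    have : m 0 r = 0 := by
      show tot (D 0) (xl lam r) = 0
      rw [h2, tot_nil]
      rfl
    rw [this]
    exact cnt_self_pos r
  · intro a b hab hb i hi s hsa hsb
    rw [hMmem a b hab hb] at hi ⊢
    have hir : G.kid i s ≠ r := by
      intro h
      have e1 : 0 < cnt G i r := by
        have := hmono b L hb le_rfl i
        rw [hend] at this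
        omega
      have e2 := G.rank_lt i s
      rw [h] at e2
      rcases cnt_rank e1 with e3 | e3
      · rw [e3] at e2
        exact lt_irrefl _ e2
      · omega
    have ea := conserve (hsupp a (by omega)) hir hsa
    have eb := conserve (hsupp b hb) hir hsb
    show tot (D a) (xl lam (G.kid i s)) < tot (D b) (xl lam (G.kid i s))
    rw [ea, eb]
    refine Finset.sum_lt_sum (fun j _ => Nat.mul_le_mul_right _ (hmono a b hab hb j))
      ⟨i, mem_univ _, ?_⟩
    exact Nat.mul_lt_mul_of_pos_right hi (E_kid_pos i s)

end Pool.Agent.TH679.PD
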