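import Pool.Agent.TH679.PD.Tree
import Pool.Agent.H564R3.TS.Trop
import Pool.Agent.H564R3.TS.Real

/-!
What the correctness of a program says about the monomials in its output register.
-/

set_option autoImplicit false

namespace Pool.Agent.TH679.PD

open Finset
open scoped NNReal
open Pool.Agent.H564R3.PW (Instr exec syms)
open Pool.Agent.H564R3.TS (B_tr B_untrop_tr B_sound1 B_sound2 b2_sound)
open Pool.Agent.W994.DE (Dag)
open Pool.Agent.W994.DE.Dag

variable {G : Dag} {k : ℕ}

/-- The monomials of the output register contain those of all labellings, and have enough weight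
for all weights that are constant on derivation trees. -/
structure Good (T : Set (Rule G k → ℕ)) (r : G.V) (u₀ : Fin k) : Prop where
  mem : ∀ lam : G.V → Fin k, lam r = u₀ → Mon lam r ∈ T
  ge : ∀ (W : Rule G k → ℕ) (S : G.V → Fin k → ℕ), Cert W S → ∀ u ∈ T, S r u₀ ≤ dot u W

theorem eq_Mon {T : Set (Rule G k → ℕ)} {r : G.V} {u₀ : Fin k}
    (ge : ∀ (W : Rule G k → ℕ) (S : G.V → Fin k → ℕ), Cert W S → ∀ u ∈ T, S r u₀ ≤ dot u W)
    {lam : G.V → Fin k} {u : Rule G k → ℕ} (hu : u ∈ T) (hs : Supp lam u)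
    (h1 : dot u (fun _ => 1) ≤ size G (fun _ => 1) r) : u = Mon lam r := by
  have hdeg : ∀ i, cnt G i r ≤ u (xl lam i) := by
    intro i
    have h2 := ge _ _ (cert_size (fun j => if j = i then 1 else 0)) u hu
    rw [dot_supp hs, size_cnt _ r lam] at h2
    have e1 : ∑ j, cnt G j r * (if j = i then 1 else 0) = cnt G i r := by
      rw [Finset.sum_eq_single i]
      · rw [if_pos rfl, mul_one]
      · intro j _ hj
        rw [if_neg hj, mul_zero]
      · intro h; exact absurd (mem_univ _) h
    have e2 : ∑ j, u (xl lam j) * (if (xl lam j).1 = i then 1 else 0) = u (xl lam i) := by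
      rw [Finset.sum_eq_single i]
      · rw [if_pos (xl_fst lam i), mul_one]
      · intro j _ hj
        rw [if_neg (by rw [xl_fst]; exact hj), mul_zero]
      · intro h; exact absurd (mem_univ _) h
    rw [e1, e2] at h2
    exact h2
  rw [dot_supp hs, size_cnt _ r lam] at h1
  simp only [mul_one] at h1
  have h3 := (Finset.sum_eq_sum_iff_of_le (s := univ) (fun i _ => hdeg i)).1
    (le_antisymm (Finset.sum_le_sum fun i _ => hdeg i) h1)
  funext x
  by_cases hx : x = xl lam x.1
  · rw [hx, Mon_xl]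
    exact (h3 x.1 (mem_univ _)).symm
  · have h4 : u x = 0 := by
      by_contra h
      exact hx (hs x h)
    have h5 : Mon lam r x = 0 := by
      by_contra h
      exact hx (Mon_supp lam r x h)
    rw [h4, h5]

/-! ### The tropical semiring -/

theorem untrop_deriv (w : Rule G k → Tropical (WithTop ℝ)) (i : G.V) (u : Fin k) :
    Tropical.untrop (deriv w i u) = univ.inf fun φ : Fin (G.deg i) → Fin k =>
      Tropical.untrop (w ⟨i, u, φ⟩) + ∑ a, Tropical.untrop (deriv w (G.kid i a) (φ a)) := by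
  rw [deriv_eq, Finset.untrop_sum']
  congr 1
  funext φ
  show Tropical.untrop (w ⟨i, u, φ⟩ * ∏ a, deriv w (G.kid i a) (φ a)) = _
  rw [Tropical.untrop_mul, untrop_prod]

theorem trop_lower {W : Rule G k → ℕ} {S : G.V → Fin k → ℕ} (hW : Cert W S) (N : ℕ) (i : G.V) :
    ∀ u : Fin k, (((N * S i u : ℕ) : ℝ) : WithTop ℝ) ≤
      Tropical.untrop (deriv (fun x => B_tr (N * W x)) i u) := by
  refine rank_induction (p := fun i => ∀ u : Fin k, (((N * S i u : ℕ) : ℝ) : WithTop ℝ) ≤
      Tropical.untrop (deriv (fun x => B_tr (N * W x)) i u)) (fun i ih u => ?_) i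
  rw [untrop_deriv]
  refine Finset.le_inf fun φ _ => ?_
  rw [B_untrop_tr]
  have h1 : ∑ a, (((N * S (G.kid i a) (φ a) : ℕ) : ℝ) : WithTop ℝ) ≤
      ∑ a, Tropical.untrop (deriv (fun x => B_tr (N * W x)) (G.kid i a) (φ a)) :=
    Finset.sum_le_sum fun a _ => ih a (φ a)
  refine le_trans (le_of_eq ?_) (add_le_add le_rfl h1)
  rw [← WithTop.coe_sum, ← WithTop.coe_add, ← Nat.cast_sum, ← Nat.cast_add, ← Finset.mul_sum,
    ← mul_add, hW i u φ]

theorem trop_upper (lam : G.V → Fin k) (w : Rule G k → ℕ) (i : G.V) :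
    Tropical.untrop (deriv (fun x => B_tr (w x)) i (lam i)) ≤
      (((size G (fun i => w (xl lam i)) i : ℕ) : ℝ) : WithTop ℝ) := by
  refine rank_induction (p := fun i => Tropical.untrop (deriv (fun x => B_tr (w x)) i (lam i)) ≤
      (((size G (fun i => w (xl lam i)) i : ℕ) : ℝ) : WithTop ℝ)) (fun i ih => ?_) i
  rw [untrop_deriv]
  refine (Finset.inf_le (mem_univ (fun a => lam (G.kid i a)))).trans ?_
  rw [B_untrop_tr, size_eq]
  have h1 : ∑ a, Tropical.untrop (deriv (fun x => B_tr (w x)) (G.kid i a) (lam (G.kid i a))) ≤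
      ∑ a, (((size G (fun i => w (xl lam i)) (G.kid i a) : ℕ) : ℝ) : WithTop ℝ) :=
    Finset.sum_le_sum fun a _ => ih a
  refine (add_le_add le_rfl h1).trans (le_of_eq ?_)
  rw [← WithTop.coe_sum, ← WithTop.coe_add, ← Nat.cast_sum, ← Nat.cast_add]
  rfl

theorem size_const (c : ℕ) (r : G.V) (lam : G.V → Fin k) :
    size G (fun _ => c) r = c * size G (fun _ => 1) r := by
  rw [size_cnt _ r lam, size_cnt _ r lam, Finset.mul_sum]
  exact Finset.sum_congr rfl fun i _ => by ring

/-- The program `p`, whose constants are real numbers or infinity, writes into register `o` the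
minimum weight of a derivation tree of `(r, u₀)`, for all weights in the natural numbers. -/
def SolvesMin {ρ : Type} [DecidableEq ρ] (r : G.V) (u₀ : Fin k)
    (p : List (Instr (Tropical (WithTop ℝ)) (Rule G k) ρ)) (o : ρ) : Prop :=
  ∀ w : Rule G k → ℕ,
    exec (fun x => Tropical.trop (((w x : ℕ) : ℝ) : WithTop ℝ)) p o =
      deriv (fun x => Tropical.trop (((w x : ℕ) : ℝ) : WithTop ℝ)) r u₀

/-- The program `p` over the nonnegative real numbers computes the sum over all derivation trees of
`(r, u₀)` of the products of the weights. -/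
def SolvesSum {ρ : Type} [DecidableEq ρ] (r : G.V) (u₀ : Fin k)
    (p : List (Instr ℝ≥0 (Rule G k) ρ)) (o : ρ) : Prop :=
  ∀ w : Rule G k → ℝ≥0, exec w p o = deriv w r u₀

theorem good_min {ρ : Type} [DecidableEq ρ] {r : G.V} {u₀ : Fin k}
    {p : List (Instr (Tropical (WithTop ℝ)) (Rule G k) ρ)} {o : ρ} (h : SolvesMin r u₀ p o) :
    Good (syms p o) r u₀ := by
  classical
  have h' : ∀ w : Rule G k → ℕ, exec (fun x => B_tr (w x)) p o = deriv (fun x => B_tr (w x)) r u₀ :=
    h
  have ge : ∀ (W : Rule G k → ℕ) (S : G.V → Fin k → ℕ), Cert W S → ∀ u ∈ syms p o,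
      S r u₀ ≤ dot u W := by
    intro W S hW u hu
    obtain ⟨c, hc⟩ := B_sound1 p o u hu
    by_contra hlt
    push Not at hlt
    obtain ⟨N, hN⟩ := exists_nat_gt c
    have h1 := hc (fun x => N * W x)
    rw [h'] at h1
    have h2 := (trop_lower hW N r u₀).trans h1
    rw [WithTop.coe_le_coe] at h2
    have h3 : ∑ x, u x * (N * W x) = N * dot u W := by
      rw [dot, Finset.mul_sum]
      exact Finset.sum_congr rfl fun x _ => by ring
    rw [h3] at h2
    have h4 : N * (dot u W + 1) ≤ N * S r u₀ := Nat.mul_le_mul_left _ hlt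
    have h5 : ((N * (dot u W + 1) : ℕ) : ℝ) ≤ ((N * S r u₀ : ℕ) : ℝ) := by exact_mod_cast h4
    push_cast at h2 h5
    linarith
  refine ⟨fun lam hlam => ?_, ge⟩
  obtain ⟨C, hC, hs⟩ := B_sound2 p
  obtain ⟨t, ht⟩ := exists_nat_gt C
  set w : Rule G k → ℕ := fun x => if x = xl lam x.1 then t else 2 * t with hw
  have h1 : Tropical.untrop (exec (fun x => B_tr (w x)) p o) ≤
      (((t * size G (fun _ => 1) r : ℕ) : ℝ) : WithTop ℝ) := by
    rw [h', ← hlam]
    refine (trop_upper lam w r).trans (le_of_eq ?_)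
    have h2 : (fun i => w (xl lam i)) = fun _ => t := by
      funext i
      rw [hw]
      exact if_pos rfl
    rw [h2, size_const t r lam]
  have hne : Tropical.untrop (exec (fun x => B_tr (w x)) p o) ≠ ⊤ := by
    intro h4
    rw [h4] at h1
    exact absurd (top_le_iff.1 h1) WithTop.coe_ne_top
  obtain ⟨u, hu, hu'⟩ := hs w o hne
  have h4 := hu'.trans h1
  rw [WithTop.coe_le_coe] at h4
  have h5 : ∑ x, u x * w x < t * (size G (fun _ => 1) r + 1) := by
    have : ((∑ x, u x * w x : ℕ) : ℝ) < ((t * (size G (fun _ => 1) r + 1) : ℕ) : ℝ) := by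
      push_cast at h4 ⊢
      linarith
    exact_mod_cast this
  have hge := ge _ _ (cert_size (fun _ => 1)) u hu
  have hsupp : Supp lam u := by
    intro x hx
    by_contra hne'
    have h6 : t * (dot u (fun _ => 1) + 1) ≤ ∑ x, u x * w x := by
      have e1 : ∑ y, u y * w y = ∑ y ∈ univ.erase x, u y * w y + u x * w x :=
        (Finset.sum_erase_add _ _ (mem_univ x)).symm
      have e2 : dot u (fun _ => 1) = ∑ y ∈ univ.erase x, u y * 1 + u x * 1 :=
        (Finset.sum_erase_add _ _ (mem_univ x)).symm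
      have e3 : t * ∑ y ∈ univ.erase x, u y * 1 ≤ ∑ y ∈ univ.erase x, u y * w y := by
        rw [Finset.mul_sum]
        refine Finset.sum_le_sum fun y _ => ?_
        have : t ≤ w y := by
          rw [hw]
          dsimp only
          split_ifs <;> omega
        calc t * (u y * 1) = u y * t := by ring
          _ ≤ u y * w y := Nat.mul_le_mul_left _ this
      have e4 : w x = 2 * t := by
        rw [hw]
        exact if_neg hne'
      have e5 : t * (u x * 1 + 1) ≤ u x * w x := by
        rw [e4]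
        have : 1 ≤ u x := Nat.one_le_iff_ne_zero.2 hx
        calc t * (u x * 1 + 1) ≤ t * (u x + u x) := Nat.mul_le_mul_left _ (by omega)
          _ = u x * (2 * t) := by ring
      rw [e1, e2]
      calc t * (∑ y ∈ univ.erase x, u y * 1 + u x * 1 + 1)
          = t * ∑ y ∈ univ.erase x, u y * 1 + t * (u x * 1 + 1) := by ring
        _ ≤ _ := add_le_add e3 e5
    have h7 : t * (size G (fun _ => 1) r + 1) ≤ t * (dot u (fun _ => 1) + 1) :=
      Nat.mul_le_mul_left _ (by omega)
    omega
  have h8 : u = Mon lam r := by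
    refine eq_Mon ge hu hsupp ?_
    have h9 : t * dot u (fun _ => 1) ≤ ∑ x, u x * w x := by
      rw [dot, Finset.mul_sum]
      refine Finset.sum_le_sum fun y _ => ?_
      have : t ≤ w y := by
        rw [hw]
        dsimp only
        split_ifs <;> omega
      calc t * (u y * 1) = u y * t := by ring
        _ ≤ u y * w y := Nat.mul_le_mul_left _ this
    have h10 : t * dot u (fun _ => 1) < t * (size G (fun _ => 1) r + 1) := lt_of_le_of_lt h9 h5
    have h11 := Nat.lt_of_mul_lt_mul_left h10
    omega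
  rw [← h8]
  exact hu

/-! ### The nonnegative reals -/

/-- the number of derivation trees -/
def ntr (G : Dag) (k : ℕ) (i : G.V) : ℕ := k ^ G.deg i * ∏ a, ntr G k (G.kid i a)
termination_by G.rank i
decreasing_by exact G.rank_lt i a

theorem ntr_eq (i : G.V) : ntr G k i = k ^ G.deg i * ∏ a, ntr G k (G.kid i a) := by
  rw [ntr]

theorem nn_cert {W : Rule G k → ℕ} {S : G.V → Fin k → ℕ} (hW : Cert W S) (z : ℝ≥0) (i : G.V) :
    ∀ u : Fin k, deriv (fun x => z ^ W x) i u = ntr G k i * z ^ S i u := by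
  refine rank_induction (p := fun i => ∀ u : Fin k, deriv (fun x => z ^ W x) i u =
    ntr G k i * z ^ S i u) (fun i ih u => ?_) i
  rw [deriv_eq]
  have h1 : ∀ φ : Fin (G.deg i) → Fin k, z ^ W ⟨i, u, φ⟩ *
      ∏ a, deriv (fun x => z ^ W x) (G.kid i a) (φ a) =
        ((∏ a, ntr G k (G.kid i a) : ℕ) : ℝ≥0) * z ^ S i u := by
    intro φ
    rw [Finset.prod_congr rfl fun a _ => ih a (φ a), Finset.prod_mul_distrib,
      Finset.prod_pow_eq_pow_sum, ← hW i u φ, pow_add]
    push_cast
    ring
  rw [Finset.sum_congr rfl fun φ _ => h1 φ, Finset.sum_const, Finset.card_univ, Fintype.card_fun,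
    Fintype.card_fin, Fintype.card_fin, ntr_eq, nsmul_eq_mul]
  push_cast
  ring

theorem nn_lam (lam : G.V → Fin k) (t : ℝ≥0) (i : G.V) : ∀ u : Fin k,
    deriv (fun x => if x = xl lam x.1 then t else 0) i u =
      if u = lam i then t ^ size G (fun _ => 1) i else 0 := by
  refine rank_induction (p := fun i => ∀ u : Fin k,
    deriv (fun x => if x = xl lam x.1 then t else 0) i u =
      if u = lam i then t ^ size G (fun _ => 1) i else 0) (fun i ih u => ?_) i
  rw [deriv_eq, Finset.sum_eq_single (fun a => lam (G.kid i a))]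
  · rw [Finset.prod_congr rfl fun a _ => ih a _]
    simp only [if_true]
    rw [Finset.prod_pow_eq_pow_sum, size_eq _ i, pow_add, pow_one]
    by_cases hu : u = lam i
    · subst hu
      rw [if_pos rfl, if_pos]
      rfl
    · rw [if_neg hu, if_neg, zero_mul]
      intro h
      apply hu
      have := congrArg (fun x : Rule G k => (⟨x.1, x.2.1⟩ : G.V × Fin k)) h
      exact (Prod.mk.injEq _ _ _ _ ▸ this).2
  · intro φ _ hφ
    obtain ⟨a, ha⟩ := Function.ne_iff.1 hφ
    have : ∏ a, deriv (fun x => if x = xl lam x.1 then t else 0) (G.kid i a) (φ a) = 0 := by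
      refine Finset.prod_eq_zero (mem_univ a) ?_
      rw [ih a, if_neg ha]
    rw [this, mul_zero]
  · intro h
    exact absurd (mem_univ _) h

theorem good_sum {ρ : Type} [DecidableEq ρ] {r : G.V} {u₀ : Fin k}
    {p : List (Instr ℝ≥0 (Rule G k) ρ)} {o : ρ} (h : SolvesSum r u₀ p o) :
    Good (syms p o) r u₀ := by
  classical
  have ge : ∀ (W : Rule G k → ℕ) (S : G.V → Fin k → ℕ), Cert W S → ∀ u ∈ syms p o,
      S r u₀ ≤ dot u W := by
    intro W S hW u hu
    obtain ⟨c, hc, hcw⟩ := (b2_sound p o).1 u hu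
    by_contra hlt
    push Not at hlt
    set z : ℝ≥0 := min 1 (c / (ntr G k r + 1)) with hz
    have hz1 : z ≤ 1 := min_le_left _ _
    have hz2 : z ≤ c / (ntr G k r + 1) := min_le_right _ _
    have hz0 : 0 < z := lt_min one_pos (div_pos hc (by positivity))
    have h1 := hcw (fun x => z ^ W x)
    rw [h, nn_cert hW] at h1
    have h2 : ∏ x, (z ^ W x) ^ u x = z ^ dot u W := by
      rw [dot, ← Finset.prod_pow_eq_pow_sum]
      exact Finset.prod_congr rfl fun x _ => by rw [← pow_mul, mul_comm]
    rw [h2] at h1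
    have h3 : (ntr G k r : ℝ≥0) * z ^ S r u₀ ≤ ntr G k r * (z ^ dot u W * z) := by
      rw [← pow_succ]
      exact mul_le_mul' le_rfl (pow_le_pow_right_of_le_one' hz1 hlt)
    have h4 : c * z ^ dot u W ≤ (ntr G k r * z) * z ^ dot u W := by
      refine (h1.trans h3).trans (le_of_eq ?_)
      ring
    have h5 : c ≤ ntr G k r * z := le_of_mul_le_mul_right h4 (pow_pos hz0 _)
    have h6 : ntr G k r * z ≤ ntr G k r * (c / (ntr G k r + 1)) := mul_le_mul' le_rfl hz2
    have h7 : (ntr G k r : ℝ≥0) * (c / (ntr G k r + 1)) < c := by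
      rw [mul_div_assoc', div_lt_iff₀ (by positivity), mul_comm, mul_add, mul_one]
      exact lt_add_of_pos_right _ hc
    exact absurd (h5.trans h6) (not_le.2 h7)
  refine ⟨fun lam hlam => ?_, ge⟩
  have hval : ∀ t : ℝ≥0, exec (fun x => if x = xl lam x.1 then t else 0) p o =
      t ^ size G (fun _ => 1) r := by
    intro t
    rw [h, nn_lam, if_pos hlam.symm]
  have hne : exec (fun x => if x = xl lam x.1 then (1 : ℝ≥0) else 0) p o ≠ 0 := by
    rw [hval, one_pow]; exact one_ne_zero
  obtain ⟨u, hu, hu'⟩ := (b2_sound p o).2 _ hne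
  have hsupp : Supp lam u := by
    intro x hx
    by_contra hc
    rw [Finset.prod_ne_zero_iff] at hu'
    have := hu' x (Finset.mem_univ x)
    apply this
    simp only [if_neg hc]
    exact zero_pow hx
  obtain ⟨c, hc, hcw⟩ := (b2_sound p o).1 u hu
  have hpow : ∀ t : ℝ≥0, c * t ^ dot u (fun _ => 1) ≤ t ^ size G (fun _ => 1) r := by
    intro t
    have h1 := hcw (fun x => if x = xl lam x.1 then t else 0)
    rw [hval] at h1
    have h2 : ∏ x : Rule G k, (if x = xl lam x.1 then t else 0) ^ u x =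
        t ^ dot u (fun _ => 1) := by
      rw [dot, ← Finset.prod_pow_eq_pow_sum]
      refine Finset.prod_congr rfl fun x _ => ?_
      by_cases hx : u x = 0
      · rw [hx, pow_zero, zero_mul, pow_zero]
      · rw [if_pos (hsupp x hx), mul_one]
    rw [h2] at h1
    exact h1
  have hdeg : dot u (fun _ => 1) ≤ size G (fun _ => 1) r := by
    by_contra hcon
    push Not at hcon
    set t : ℝ≥0 := 1 + c⁻¹ with ht
    have ht1 : 1 ≤ t := le_self_add
    have ht0 : 0 < t := lt_of_lt_of_le one_pos ht1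
    have hct : 1 < c * t := by
      rw [ht, mul_add, mul_one, mul_inv_cancel₀ hc.ne']
      exact lt_add_of_pos_left 1 hc
    have h1 : c * t ^ (size G (fun _ => 1) r + 1) ≤ t ^ size G (fun _ => 1) r :=
      (mul_le_mul' le_rfl (pow_le_pow_right₀ ht1 hcon)).trans (hpow t)
    have h2 : t ^ size G (fun _ => 1) r < c * t ^ (size G (fun _ => 1) r + 1) := by
      rw [pow_succ, mul_left_comm]
      exact lt_mul_of_one_lt_right (pow_pos ht0 _) hct
    exact absurd h1 (not_le.2 h2)
  rw [← eq_Mon ge hu hsupp hdeg]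
  exact hu

end Pool.Agent.TH679.PD
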