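import Pool.Agent.TH679.PD.Good

/-!
Tracing a monomial of the output backwards through the program.
-/

set_option autoImplicit false

namespace Pool.Agent.TH679.PD

open Finset
open Pool.Agent.H564R3.PW (Instr exec syms)
open Pool.Agent.H564R3.TS (b2_syms_append)

section Use

variable {X ρ : Type}

/-- The register `e.1` holds the monomial `e.2` and this monomial is used for the monomial `M` of
the output: it can be replaced by any other monomial of the register, giving a monomial of `T`. -/
def Use (T : Set (X → ℕ)) (M : X → ℕ) (s : ρ → Set (X → ℕ)) (e : ρ × (X → ℕ)) : Prop :=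
  e.2 ∈ s e.1 ∧ ∃ c, c + e.2 = M ∧ ∀ q ∈ s e.1, c + q ∈ T

/-- the product of the monomials in a list -/
def tot (D : List (ρ × (X → ℕ))) : X → ℕ := (D.map Prod.snd).sum

theorem tot_nil : tot ([] : List (ρ × (X → ℕ))) = 0 := rfl

theorem tot_cons (e : ρ × (X → ℕ)) (D : List (ρ × (X → ℕ))) : tot (e :: D) = e.2 + tot D := by
  simp [tot]

theorem tot_append (D D' : List (ρ × (X → ℕ))) : tot (D ++ D') = tot D + tot D' := by
  simp [tot]

variable {R : Type} [Zero R] [DecidableEq ρ] [DecidableEq X]

theorem use_step {T : Set (X → ℕ)} {M : X → ℕ} {s : ρ → Set (X → ℕ)} (I : Instr R X ρ)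
    {e : ρ × (X → ℕ)} (h : Use T M (I.sym s) e) :
    ∃ (D : List (ρ × (X → ℕ))) (y : X → ℕ), (∀ e' ∈ D, Use T M s e') ∧ y + tot D = e.2 ∧
      ∀ x, y x ≠ 0 → ∃ i, I = .load i x := by
  obtain ⟨h1, c, h2, h3⟩ := h
  obtain ⟨i, q⟩ := e
  dsimp only at h1 h2 h3
  -- an element of another register
  have hother : ∀ j, i ≠ j → (I.sym s) i = s i → ∃ (D : List (ρ × (X → ℕ))) (y : X → ℕ),
      (∀ e' ∈ D, Use T M s e') ∧ y + tot D = q ∧ ∀ x, y x ≠ 0 → ∃ i, I = .load i x := by
    intro j _ hs
    rw [hs] at h1 h3
    refine ⟨[(i, q)], 0, ?_, ?_, fun x hx => absurd rfl hx⟩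
    · intro e' he'
      rw [List.mem_singleton] at he'
      subst he'
      exact ⟨h1, c, h2, h3⟩
    · rw [tot_cons, tot_nil, add_zero, zero_add]
  cases I with
  | load j x =>
    by_cases hij : i = j
    · subst hij
      simp only [Instr.sym, Function.update_self] at h1
      rw [Set.mem_singleton_iff] at h1
      subst h1
      refine ⟨[], Pi.single x 1, by simp, by rw [tot_nil, add_zero], ?_⟩
      intro y hy
      have : y = x := by
        by_contra hne
        rw [Pi.single_apply, if_neg hne] at hy
        exact hy rfl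
      subst this
      exact ⟨i, rfl⟩
    · exact hother j hij (by simp only [Instr.sym, Function.update_of_ne hij])
  | const j a =>
    by_cases hij : i = j
    · subst hij
      simp only [Instr.sym, Function.update_self] at h1
      obtain ⟨h1, _⟩ := h1
      subst h1
      exact ⟨[], 0, by simp, by rw [tot_nil, add_zero], fun x hx => absurd rfl hx⟩
    · exact hother j hij (by simp only [Instr.sym, Function.update_of_ne hij])
  | add j a b =>
    by_cases hij : i = j
    · subst hij
      simp only [Instr.sym, Function.update_self] at h1 h3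
      rcases h1 with h1 | h1
      · refine ⟨[(a, q)], 0, ?_, ?_, fun x hx => absurd rfl hx⟩
        · intro e' he'
          rw [List.mem_singleton] at he'
          subst he'
          exact ⟨h1, c, h2, fun q' hq' => h3 q' (Or.inl hq')⟩
        · rw [tot_cons, tot_nil, add_zero, zero_add]
      · refine ⟨[(b, q)], 0, ?_, ?_, fun x hx => absurd rfl hx⟩
        · intro e' he'
          rw [List.mem_singleton] at he'
          subst he'
          exact ⟨h1, c, h2, fun q' hq' => h3 q' (Or.inr hq')⟩
        · rw [tot_cons, tot_nil, add_zero, zero_add]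
    · exact hother j hij (by simp only [Instr.sym, Function.update_of_ne hij])
  | mul j a b =>
    by_cases hij : i = j
    · subst hij
      simp only [Instr.sym, Function.update_self] at h1 h3
      obtain ⟨q1, hq1, q2, hq2, rfl⟩ := h1
      refine ⟨[(a, q1), (b, q2)], 0, ?_, ?_, fun x hx => absurd rfl hx⟩
      · intro e' he'
        rw [List.mem_cons, List.mem_singleton] at he'
        rcases he' with he' | he'
        · subst he'
          refine ⟨hq1, c + q2, by rw [← h2]; abel, fun q' hq' => ?_⟩
          have := h3 (q' + q2) ⟨q', hq', q2, hq2, rfl⟩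
          rwa [show c + q2 + q' = c + (q' + q2) by abel]
        · subst he'
          refine ⟨hq2, c + q1, by rw [← h2]; abel, fun q' hq' => ?_⟩
          have := h3 (q1 + q') ⟨q1, hq1, q', hq', rfl⟩
          rwa [show c + q1 + q' = c + (q1 + q') by abel]
      · rw [tot_cons, tot_cons, tot_nil, add_zero, zero_add]
    · exact hother j hij (by simp only [Instr.sym, Function.update_of_ne hij])

theorem use_list {T : Set (X → ℕ)} {M : X → ℕ} {s : ρ → Set (X → ℕ)} (I : Instr R X ρ) :
    ∀ L : List (ρ × (X → ℕ)), (∀ e ∈ L, Use T M (I.sym s) e) →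
    ∃ (D : List (ρ × (X → ℕ))) (y : X → ℕ), (∀ e' ∈ D, Use T M s e') ∧ y + tot D = tot L ∧
      ∀ x, y x ≠ 0 → ∃ i, I = .load i x := by
  intro L
  induction L with
  | nil =>
    intro _
    exact ⟨[], 0, by simp, by rw [tot_nil, add_zero], fun x hx => absurd rfl hx⟩
  | cons e L ih =>
    intro h
    obtain ⟨D1, y1, a1, a2, a3⟩ := use_step I (h e List.mem_cons_self)
    obtain ⟨D2, y2, b1, b2, b3⟩ := ih fun e' he' => h e' (List.mem_cons_of_mem _ he')
    refine ⟨D1 ++ D2, y1 + y2, ?_, ?_, ?_⟩
    · intro e' he'
      rw [List.mem_append] at he'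
      rcases he' with he' | he'
      · exact a1 e' he'
      · exact b1 e' he'
    · rw [tot_append, tot_cons, ← a2, ← b2]
      abel
    · intro x hx
      by_cases h1 : y1 x = 0
      · refine b3 x ?_
        rw [Pi.add_apply, h1, zero_add] at hx
        exact hx
      · exact a3 x h1

theorem history {T : Set (X → ℕ)} {M : X → ℕ} (p : List (Instr R X ρ)) :
    ∀ L : List (ρ × (X → ℕ)), (∀ e ∈ L, Use T M (syms p) e) →
    ∃ D : ℕ → List (ρ × (X → ℕ)), D p.length = L ∧
      (∀ t ≤ p.length, ∀ e ∈ D t, Use T M (syms (p.take t)) e) ∧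
      ∀ t < p.length, ∃ y : X → ℕ, tot (D (t + 1)) = y + tot (D t) ∧
        ∀ x, y x ≠ 0 → ∃ i, p[t]? = some (.load i x) := by
  induction p using List.reverseRecOn with
  | nil =>
    intro L h
    refine ⟨fun _ => L, rfl, ?_, ?_⟩
    · intro t _ e he
      simpa using h e he
    · intro t ht
      exact absurd ht (Nat.not_lt_zero t)
  | append_singleton p I ih =>
    intro L h
    rw [b2_syms_append] at h
    obtain ⟨L', y, a1, a2, a3⟩ := use_list I L h
    obtain ⟨D, d1, d2, d3⟩ := ih L' a1
    have hlen : (p ++ [I]).length = p.length + 1 := by simp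
    refine ⟨fun t => if t ≤ p.length then D t else L, ?_, ?_, ?_⟩
    · dsimp only
      rw [hlen, if_neg (by omega)]
    · intro t ht e he
      dsimp only at he
      by_cases h1 : t ≤ p.length
      · rw [if_pos h1] at he
        rw [List.take_append_of_le_length h1]
        exact d2 t h1 e he
      · rw [if_neg h1] at he
        have h2 : t = (p ++ [I]).length := by omega
        rw [h2, List.take_length, b2_syms_append]
        exact h e he
    · intro t ht
      rw [hlen] at ht
      dsimp only
      rw [if_pos (show t ≤ p.length by omega)]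
      by_cases h1 : t + 1 ≤ p.length
      · rw [if_pos h1]
        obtain ⟨y', b1, b2⟩ := d3 t (by omega)
        refine ⟨y', b1, fun x hx => ?_⟩
        rw [List.getElem?_append_left (by omega)]
        exact b2 x hx
      · rw [if_neg h1]
        have h2 : t = p.length := by omega
        subst h2
        refine ⟨y, by rw [d1]; exact a2.symm, fun x hx => ?_⟩
        obtain ⟨i, hi⟩ := a3 x hx
        refine ⟨i, ?_⟩
        rw [List.getElem?_append_right le_rfl, Nat.sub_self, hi]
        rfl

theorem history_mem {p : List (Instr R X ρ)} {o : ρ} {M : X → ℕ} (hM : M ∈ syms p o) :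
    ∃ D : ℕ → List (ρ × (X → ℕ)), tot (D p.length) = M ∧ D 0 = [] ∧
      (D p.length = [(o, M)]) ∧
      (∀ t ≤ p.length, ∀ e ∈ D t, Use (syms p o) M (syms (p.take t)) e) ∧
      ∀ t < p.length, ∃ y : X → ℕ, tot (D (t + 1)) = y + tot (D t) ∧
        ∀ x, y x ≠ 0 → ∃ i, p[t]? = some (.load i x) := by
  obtain ⟨D, h1, h2, h3⟩ := history (T := syms p o) (M := M) p [(o, M)] (by
    intro e he
    rw [List.mem_singleton] at he
    subst he
    exact ⟨hM, 0, zero_add _, fun q hq => by rw [zero_add]; exact hq⟩)
  refine ⟨D, ?_, ?_, h1, h2, h3⟩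
  · rw [h1, tot_cons, tot_nil, add_zero]
  · rcases hD : D 0 with _ | ⟨e, L⟩
    · rfl
    · have h4 := (h2 0 (Nat.zero_le _) e (by rw [hD]; exact List.mem_cons_self)).1
      simp [syms] at h4

end Use

end Pool.Agent.TH679.PD
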