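import Pool.Agent.TH679.PD.Upper

/-!
The main bounds.
-/

set_option autoImplicit false

namespace Pool.Agent.TH679.PD

open Finset
open scoped NNReal
open Pool.Agent.H564R3.PW (Instr exec syms)
open Pool.Agent.W994.DE (Dag)
open Pool.Agent.W994.DE.Dag

variable {d k : ℕ} [NeZero d]

/-- The top of a stack of `j + 1` butterflies. -/
def top (d j : ℕ) [NeZero d] : (bfly d ((j + 1) * d)).V :=
  nd ((j + 1) * d) (Nat.lt_succ_self _) fun _ => false

theorem lower {R ρ : Type} [Zero R] [Fintype ρ] [DecidableEq ρ] {j : ℕ} {u₀ : Fin k}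
    {p : List (Instr R (Rule (bfly d ((j + 1) * d)) k) ρ)} {o : ρ}
    (hT : Good (syms p o) (top d j) u₀) {q : ℕ} (hq : 1 ≤ q) (hn : 16 * q ≤ 2 ^ d) :
    k ^ (q + 1) ≤ (p.length + 1) * 2 ^ Fintype.card ρ ∨ 2 ^ j * (4 * q) ≤ p.length := by
  by_cases h : (p.length + 1) * 2 ^ Fintype.card ρ < k ^ (q + 1)
  · obtain ⟨R', P, hF⟩ := exists_flow hT h
    exact Or.inr (flow_long hF hq hn)
  · exact Or.inl (not_lt.1 h)

/-- The number of rules for `k = 2` and `2 ^ (d - 4) + 1` butterflies. -/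
theorem card_two (e : ℕ) : Fintype.card (Rule (bfly (e + 4) ((2 ^ e + 1) * (e + 4))) 2) =
    32 * 2 ^ e * (1 + 4 * ((2 ^ e + 1) * (e + 4))) := by
  rw [card_Rule]
  ring

theorem num_lower (e N : ℕ) (hN : N = 32 * 2 ^ e * (1 + 4 * ((2 ^ e + 1) * (e + 4)))) :
    Real.sqrt (N / Real.logb 2 N) ≤ 12 * 2 ^ e := by
  have h1 : (2 : ℝ) ^ (2 * (e + 4)) ≤ N := by
    have : 2 ^ (2 * (e + 4)) ≤ N := by
      rw [hN]
      have h2 : 1 ≤ 2 ^ e := Nat.one_le_two_pow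
      calc 2 ^ (2 * (e + 4)) = 256 * (2 ^ e * 2 ^ e) := by ring
        _ ≤ 32 * 2 ^ e * (4 * (2 ^ e * 4)) := by nlinarith
        _ ≤ 32 * 2 ^ e * (1 + 4 * ((2 ^ e + 1) * (e + 4))) := by
            apply Nat.mul_le_mul_left
            nlinarith
    exact_mod_cast this
  have h2 : (2 * (e + 4) : ℝ) ≤ Real.logb 2 N := by
    rw [Real.le_logb_iff_rpow_le one_lt_two (lt_of_lt_of_le (by positivity) h1)]
    refine le_trans (le_of_eq ?_) h1
    rw [← Real.rpow_natCast]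
    push_cast
    rfl
  have h3 : (N : ℝ) ≤ 144 * (2 ^ e) ^ 2 * (2 * (e + 4)) := by
    rw [hN]
    push_cast
    have h4 : (1 : ℝ) ≤ 2 ^ e := one_le_pow₀ one_le_two
    have h5 : (0 : ℝ) ≤ e := Nat.cast_nonneg e
    have h6 : (0 : ℝ) ≤ (2 ^ e - 1) * (e + 4) := mul_nonneg (by linarith) (by linarith)
    nlinarith [mul_nonneg (show (0 : ℝ) ≤ 2 ^ e by positivity) h6,
      mul_nonneg (show (0 : ℝ) ≤ 2 ^ e by positivity) h5]
  have h4 : (0 : ℝ) < 2 * (e + 4) := by positivity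
  rw [Real.sqrt_le_left (by positivity), div_le_iff₀ (lt_of_lt_of_le h4 h2)]
  refine h3.trans ?_
  calc 144 * ((2 : ℝ) ^ e) ^ 2 * (2 * (e + 4)) ≤ 144 * (2 ^ e) ^ 2 * Real.logb 2 N :=
        mul_le_mul_of_nonneg_left h2 (by positivity)
    _ = (12 * 2 ^ e) ^ 2 * Real.logb 2 N := by ring

theorem num_upper (e N : ℕ) (hN : N = 32 * 2 ^ e * (1 + 4 * ((2 ^ e + 1) * (e + 4)))) :
    (64 * 2 ^ e + 1 : ℝ) ≤ 12 * Real.sqrt (N / Real.logb 2 N) := by
  have h0 : (1 : ℝ) ≤ 2 ^ e := one_le_pow₀ one_le_two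
  have h5 : (0 : ℝ) ≤ e := Nat.cast_nonneg e
  have h1 : (N : ℝ) ≤ 2 ^ (4 * (e + 4)) := by
    have : N ≤ 2 ^ (4 * (e + 4)) := by
      rw [hN]
      have h2 : 1 ≤ 2 ^ e := Nat.one_le_two_pow
      have h3 : e + 1 ≤ 2 ^ e := Nat.lt_two_pow_self
      set z := 2 ^ e with hz
      have h4 : 1 + 4 * ((z + 1) * (e + 4)) ≤ 40 * (z * z) := by nlinarith
      calc 32 * z * (1 + 4 * ((z + 1) * (e + 4))) ≤ 32 * z * (40 * (z * z)) :=
            Nat.mul_le_mul_left _ h4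
        _ ≤ 65536 * (z * z * z * z) := by nlinarith [Nat.mul_le_mul h2 (le_refl (z * z * z))]
        _ = 2 ^ (4 * (e + 4)) := by rw [hz]; ring
    exact_mod_cast this
  have hN1 : (1 : ℝ) < N := by
    have : 1 < N := by
      rw [hN]
      have h2 : 1 ≤ 2 ^ e := Nat.one_le_two_pow
      calc 1 < 32 * 1 * 1 := by norm_num
        _ ≤ _ := Nat.mul_le_mul (Nat.mul_le_mul_left _ h2) (Nat.le_add_right _ _)
    exact_mod_cast this
  have h2 : Real.logb 2 N ≤ 4 * (e + 4) := by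
    rw [Real.logb_le_iff_le_rpow one_lt_two (by linarith)]
    refine h1.trans (le_of_eq ?_)
    rw [← Real.rpow_natCast]
    push_cast
    rfl
  have hlog : 0 < Real.logb 2 N := Real.logb_pos one_lt_two hN1
  have h3 : 32 * ((2 : ℝ) ^ e) ^ 2 * (4 * (e + 4)) ≤ N := by
    rw [hN]
    push_cast
    nlinarith [mul_nonneg (show (0 : ℝ) ≤ 2 ^ e by positivity) h5]
  have h4 : (65 / 12 * 2 ^ e : ℝ) ≤ Real.sqrt (N / Real.logb 2 N) := by
    apply Real.le_sqrt_of_sq_le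
    rw [le_div_iff₀ hlog]
    calc (65 / 12 * (2 : ℝ) ^ e) ^ 2 * Real.logb 2 N ≤ 32 * ((2 : ℝ) ^ e) ^ 2 * Real.logb 2 N := by
          apply mul_le_mul_of_nonneg_right _ hlog.le
          nlinarith [sq_nonneg ((2 : ℝ) ^ e)]
      _ ≤ 32 * ((2 : ℝ) ^ e) ^ 2 * (4 * (e + 4)) := mul_le_mul_of_nonneg_left h2 (by positivity)
      _ ≤ N := h3
  linarith

theorem asym {R ρ : Type} [Zero R] [Fintype ρ] [DecidableEq ρ] (e : ℕ) {u₀ : Fin 2}
    {p : List (Instr R (Rule (bfly (e + 4) ((2 ^ e + 1) * (e + 4))) 2) ρ)} {o : ρ}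
    (hT : Good (syms p o) (top (e + 4) (2 ^ e)) u₀) :
    (2 ^ e + 1 : ℝ) ≤ Fintype.card ρ + Real.logb 2 (p.length + 1) := by
  have h1 : 2 ^ (2 ^ e + 1) ≤ (p.length + 1) * 2 ^ Fintype.card ρ := by
    rcases lower hT (q := 2 ^ e) Nat.one_le_two_pow (le_of_eq (by ring)) with h | h
    · exact h
    · calc 2 ^ (2 ^ e + 1) = 2 ^ 2 ^ e * 2 := by ring
        _ ≤ 2 ^ 2 ^ e * (4 * 2 ^ e) := Nat.mul_le_mul_left _ (by
            have : 1 ≤ 2 ^ e := Nat.one_le_two_pow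
            omega)
        _ ≤ p.length := h
        _ ≤ (p.length + 1) * 1 := by omega
        _ ≤ _ := Nat.mul_le_mul_left _ Nat.one_le_two_pow
  have h2 : ((2 : ℝ) ^ (2 ^ e + 1)) ≤ (p.length + 1) * 2 ^ Fintype.card ρ := by exact_mod_cast h1
  have h3 := Real.logb_le_logb_of_le one_lt_two (by positivity) h2
  rw [Real.logb_mul (by positivity) (by positivity), Real.logb_pow, Real.logb_pow,
    Real.logb_self_eq_one one_lt_two, mul_one, mul_one] at h3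
  push_cast at h3
  linarith

end Pool.Agent.TH679.PD
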