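import Pool.Agent.TH679.PD.Upper

/-!
Pure dynamic programs for derivations over any graph and the black pebble game
-/

set_option autoImplicit false

namespace Pool.Agent.TH679.PD

open Finset
open Pool.Agent.H564R3.PW (Instr runs exec syms)
open Pool.Agent.W994.DE (Dag)
open Pool.Agent.W994.DE.Dag

variable {G : Dag} {k : ℕ}

theorem Flow.mis {r : G.V} {L q : ℕ} {R P : ℕ → Finset G.V} (hF : Flow G r L q R P) (a b : ℕ) :
    (Mis R a b).card ≤ 2 * q := by
  classical
  -- intervals inside `[0, L]`
  have key : ∀ a b, a ≤ b → b ≤ L → Mis R a b ⊆ P a ∪ P b := by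
    intro a b hab hb j hj
    obtain ⟨h1, i, hi, s, hs⟩ := mem_Mis.1 hj
    by_contra hno
    rw [mem_union, not_or] at hno
    rw [← hs] at hno h1
    exact h1 (hF.keep a b hab hb i hi s hno.1 hno.2)
  have hM : ∀ c, L ≤ c → M R a c = M R a L := by
    intro c hc
    ext j
    rw [mem_M, mem_M]
    constructor
    · rintro ⟨t, h1, h2, h3⟩
      refine ⟨t, h1, ?_, h3⟩
      by_contra hno
      rw [hF.stop t (by omega)] at h3
      exact absurd h3 (Finset.notMem_empty _)
    · rintro ⟨t, h1, h2, h3⟩
      exact ⟨t, h1, by omega, h3⟩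
  have hle : ∀ c, c ≤ L → a ≤ c → (Mis R a c).card ≤ 2 * q := by
    intro c hc hac
    have h1 := (card_le_card (key a c hac hc)).trans (card_union_le _ _)
    have h2 := hF.few a (by omega)
    have h3 := hF.few c hc
    omega
  have hempty : ∀ c, c ≤ a → (Mis R a c).card ≤ 2 * q := by
    intro c hc
    have h1 : Mis R a c = ∅ := by
      rw [eq_empty_iff_forall_notMem]
      intro j hj
      obtain ⟨_, i, hi, _⟩ := mem_Mis.1 hj
      obtain ⟨t, h1, h2, _⟩ := mem_M.1 hi
      omega
    rw [h1, card_empty]
    exact Nat.zero_le _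
  rcases Nat.lt_or_ge L b with h | h
  · have h1 : Mis R a b = Mis R a L := by
      unfold Mis
      rw [hM b h.le]
    rw [h1]
    rcases Nat.lt_or_ge a L with h2 | h2
    · exact hle L le_rfl h2.le
    · exact hempty L h2
  · rcases Nat.lt_or_ge a b with h2 | h2
    · exact hle b h h2.le
    · exact hempty b h2

/-- If the number of registers and the number of steps are small, then `r` can be pebbled with few
pebbles. -/
theorem peb_lower {R ρ : Type} [Zero R] [Fintype ρ] [DecidableEq ρ] {r : G.V} {u₀ : Fin k}
    {p : List (Instr R (Rule G k) ρ)} {o : ρ} (hT : Good (syms p o) r u₀) {q : ℕ}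
    (hq : (p.length + 1) * 2 ^ Fintype.card ρ < k ^ (q + 1)) :
    G.Pebblable (4 * q * Nat.clog 2 p.length + 1) r := by
  obtain ⟨R', P, hF⟩ := exists_flow hT hq
  have h1 := pebblable_of_interval (R := R') hF.one (p := 2 * q) (n := Nat.clog 2 p.length)
    (T := p.length) hF.mis (Nat.le_pow_clog (by norm_num) _) ?_ hF.top
  · have e1 : 2 * (2 * q) * Nat.clog 2 p.length + 1 = 4 * q * Nat.clog 2 p.length + 1 := by ring
    rwa [e1] at h1
  · rw [eq_empty_iff_forall_notMem]
    intro j hj
    obtain ⟨h1, i, hi, s, hs⟩ := mem_Mis.1 hj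
    rw [← hs] at h1
    refine h1 (hF.keep 0 p.length (Nat.zero_le _) le_rfl i hi s ?_ ?_)
    · rw [hF.zero]
      exact Finset.notMem_empty _
    · rw [hF.last]
      exact Finset.notMem_empty _

/-! ### Programs from pebblings -/

/-- `Peb G s t A`: the configuration `A` can be reached in the black pebble game from the empty
graph with at most `s` pebbles, putting `t` times a pebble on a node. -/
inductive Peb (G : Dag) (s : ℕ) : ℕ → Finset G.V → Prop
  | start : Peb G s 0 ∅
  | remove (t : ℕ) (A : Finset G.V) (i : G.V) (h : Peb G s t A) : Peb G s t (A.erase i)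
  | place (t : ℕ) (A : Finset G.V) (i : G.V) (h : Peb G s t A) (hk : ∀ a, G.kid i a ∈ A)
      (hs : (insert i A).card ≤ s) : Peb G s (t + 1) (insert i A)

theorem Peb.card_le {s t : ℕ} {A : Finset G.V} (h : Peb G s t A) : A.card ≤ s := by
  induction h with
  | start => simp
  | remove t A i _ ih => exact (card_erase_le).trans ih
  | place t A i _ _ hs _ => exact hs

theorem exists_peb {s : ℕ} {r : G.V} (h : G.Pebblable s r) : ∃ t A, r ∈ A ∧ Peb G s t A := by
  obtain ⟨B, hrB, hB⟩ := h
  have key : ∃ t, Peb G s t B := by
    clear hrB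
    induction hB with
    | refl => exact ⟨0, Peb.start⟩
    | tail _ hAB ih =>
      obtain ⟨t, ht⟩ := ih
      obtain ⟨hm, hc⟩ := hAB
      rcases hm.inv with ⟨i, rfl⟩ | ⟨i, hk, rfl⟩
      · exact ⟨t, Peb.remove t _ i ht⟩
      · exact ⟨t + 1, Peb.place t _ i ht hk hc⟩
  obtain ⟨t, ht⟩ := key
  exact ⟨t, B, hrB, ht⟩

section Prog

variable {R : Type} [CommSemiring R] {s : ℕ}

/-- The registers: one for each pebble and each letter, and another one. -/
abbrev PReg (s k : ℕ) : Type := (Fin s × Fin k) ⊕ Unit

/-- the program which puts the pebble `σ` on the node `i` -/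
noncomputable def put (R : Type) [CommSemiring R] (slot : G.V → Fin s) (i : G.V) (σ : Fin s)
    (l : List (Fin k)) : List (Instr R (Rule G k) (PReg s k)) :=
  l.flatMap fun u => blk (fun φ => ⟨i, u, φ⟩) (fun a v => Sum.inl (slot (G.kid i a), v))
    (Sum.inr ()) (Sum.inl (σ, u))

theorem put_run (w : Rule G k → R) (slot : G.V → Fin s) (i : G.V) (σ : Fin s)
    (hσ : ∀ a, slot (G.kid i a) ≠ σ) : ∀ (l : List (Fin k)) (V : PReg s k → R),
      (∀ a v, V (Sum.inl (slot (G.kid i a), v)) = deriv w (G.kid i a) v) →
      (∀ u ∈ l, runs w (put R slot i σ l) V (Sum.inl (σ, u)) = deriv w i u) ∧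
      ∀ τ v, τ ≠ σ → runs w (put R slot i σ l) V (Sum.inl (τ, v)) = V (Sum.inl (τ, v)) := by
  classical
  intro l
  induction l with
  | nil =>
    intro V _
    exact ⟨fun u hu => absurd hu List.not_mem_nil, fun _ _ _ => rfl⟩
  | cons u l ih =>
    intro V hV
    have h1 : put R slot i σ (u :: l) =
        blk (fun φ => (⟨i, u, φ⟩ : Rule G k)) (fun a v => Sum.inl (slot (G.kid i a), v))
          (Sum.inr ()) (Sum.inl (σ, u)) ++ put R slot i σ l := by
      simp [put]
    obtain ⟨g1, g2⟩ := blk_run w (fun φ => (⟨i, u, φ⟩ : Rule G k))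
      (fun a v => (Sum.inl (slot (G.kid i a), v) : PReg s k))
      (tmp := (Sum.inr () : PReg s k)) (out := Sum.inl (σ, u))
      (fun h => Sum.inr_ne_inl h) (fun a v h => Sum.inl_ne_inr h) (by
        intro a v h
        rw [Sum.inl.injEq, Prod.mk.injEq] at h
        exact hσ a h.1) V
    set V' := runs w (blk (fun φ => (⟨i, u, φ⟩ : Rule G k))
      (fun a v => (Sum.inl (slot (G.kid i a), v) : PReg s k)) (Sum.inr ()) (Sum.inl (σ, u))) V
      with hV'
    have hV2 : ∀ a v, V' (Sum.inl (slot (G.kid i a), v)) = deriv w (G.kid i a) v := by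
      intro a v
      rw [← hV a v]
      refine g2 _ Sum.inl_ne_inr ?_
      intro h
      rw [Sum.inl.injEq, Prod.mk.injEq] at h
      exact hσ a h.1
    obtain ⟨k1, k2⟩ := ih V' hV2
    have hval : V' (Sum.inl (σ, u)) = deriv w i u := by
      rw [g1, deriv_eq]
      refine Finset.sum_congr rfl fun φ _ => ?_
      congr 1
      exact Finset.prod_congr rfl fun a _ => hV a (φ a)
    -- the later parts do not change the register of `u`, or compute the same value again
    have hrest : u ∉ l → ∀ (l' : List (Fin k)), u ∉ l' → ∀ V'' : PReg s k → R,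
        runs w (put R slot i σ l') V'' (Sum.inl (σ, u)) = V'' (Sum.inl (σ, u)) := by
      intro _ l'
      induction l' with
      | nil => intro _ V''; rfl
      | cons u' l' ih' =>
        intro hu V''
        have h2 : put R slot i σ (u' :: l') =
            blk (fun φ => (⟨i, u', φ⟩ : Rule G k)) (fun a v => Sum.inl (slot (G.kid i a), v))
              (Sum.inr ()) (Sum.inl (σ, u')) ++ put R slot i σ l' := by
          simp [put]
        obtain ⟨_, g2'⟩ := blk_run w (fun φ => (⟨i, u', φ⟩ : Rule G k))
          (fun a v => (Sum.inl (slot (G.kid i a), v) : PReg s k))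
          (tmp := (Sum.inr () : PReg s k)) (out := Sum.inl (σ, u'))
          (fun h => Sum.inr_ne_inl h) (fun a v h => Sum.inl_ne_inr h) (by
            intro a v h
            rw [Sum.inl.injEq, Prod.mk.injEq] at h
            exact hσ a h.1) V''
        rw [h2, runs_append, ih' (fun h => hu (List.mem_cons_of_mem _ h))]
        refine g2' _ Sum.inl_ne_inr ?_
        intro h
        rw [Sum.inl.injEq, Prod.mk.injEq] at h
        exact hu (h.2 ▸ List.mem_cons_self)
    rw [h1]
    constructor
    · intro y hy
      rw [runs_append, ← hV']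
      by_cases hyl : y ∈ l
      · exact k1 y hyl
      · rw [List.mem_cons] at hy
        rcases hy with hy | hy
        · subst hy
          rw [hrest hyl l hyl V', hval]
        · exact absurd hy hyl
    · intro τ v hτ
      rw [runs_append, ← hV', k2 τ v hτ]
      refine g2 _ Sum.inl_ne_inr ?_
      intro h
      rw [Sum.inl.injEq, Prod.mk.injEq] at h
      exact hτ h.1

theorem put_length (slot : G.V → Fin s) (i : G.V) (σ : Fin s) (l : List (Fin k)) :
    (put R slot i σ l).length = l.length * (k ^ G.deg i * (G.deg i + 2) + 1) := by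
  unfold put
  rw [List.length_flatMap]
  simp_rw [blk_length]
  rw [List.map_const', List.sum_replicate, smul_eq_mul]

/-- A pebbling with `s` pebbles and `t` placements gives a program with `s * k + 1` registers. -/
theorem peb_upper (hk : 1 ≤ k) {D : ℕ} (hD : ∀ i, G.deg i ≤ D) {t : ℕ} {A : Finset G.V}
    (h : Peb G s t A) :
    ∃ (p : List (Instr R (Rule G k) (PReg s k))) (slot : G.V → Fin s ⊕ Unit),
      p.length ≤ t * (k * (k ^ D * (D + 2) + 1)) ∧
      (∀ i ∈ A, ∃ σ, slot i = Sum.inl σ) ∧
      (∀ i ∈ A, ∀ j ∈ A, slot i = slot j → i = j) ∧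
      ∀ i ∈ A, ∀ σ, slot i = Sum.inl σ → ∀ (w : Rule G k → R) (u : Fin k),
        exec w p (Sum.inl (σ, u)) = deriv w i u := by
  classical
  induction h with
  | start =>
    refine ⟨[], fun _ => Sum.inr (), by simp, ?_, ?_, ?_⟩
    · intro i hi
      exact absurd hi (notMem_empty _)
    · intro i hi
      exact absurd hi (notMem_empty _)
    · intro i hi
      exact absurd hi (notMem_empty _)
  | remove t A i _ ih =>
    obtain ⟨p, slot, h1, h2, h3, h4⟩ := ih
    exact ⟨p, slot, h1, fun j hj => h2 j (mem_of_mem_erase hj),
      fun j hj j' hj' => h3 j (mem_of_mem_erase hj) j' (mem_of_mem_erase hj'),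
      fun j hj => h4 j (mem_of_mem_erase hj)⟩
  | place t A i hA hkid hs ih =>
    obtain ⟨p, slot, h1, h2, h3, h4⟩ := ih
    by_cases hiA : i ∈ A
    · rw [insert_eq_of_mem hiA]
      exact ⟨p, slot, h1.trans (Nat.mul_le_mul_right _ (Nat.le_succ t)), h2, h3, h4⟩
    · rw [card_insert_of_notMem hiA] at hs
      -- a free slot
      obtain ⟨σ, hσ⟩ : ∃ σ : Fin s, ∀ j ∈ A, slot j ≠ Sum.inl σ := by
        by_contra hno
        push Not at hno
        choose f hf1 hf2 using hno
        have h5 : s ≤ A.card := by
          calc s = (univ : Finset (Fin s)).card := by rw [card_univ, Fintype.card_fin]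
            _ ≤ A.card := by
                refine card_le_card_of_injOn f (fun σ _ => hf1 σ) ?_
                intro σ _ σ' _ hσσ
                have h6 := hf2 σ
                have h7 := hf2 σ'
                rw [← hσσ, h6] at h7
                exact Sum.inl_injective h7
        omega
      -- the slots of the children as elements of `Fin s`
      set sl : G.V → Fin s := fun j => match slot j with
        | Sum.inl τ => τ
        | Sum.inr _ => σ with hsl
      have hslA : ∀ j ∈ A, slot j = Sum.inl (sl j) := by
        intro j hj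
        obtain ⟨τ, hτ⟩ := h2 j hj
        rw [hsl]
        simp only [hτ]
      refine ⟨p ++ put R sl i σ (List.finRange k), Function.update slot i (Sum.inl σ),
        ?_, ?_, ?_, ?_⟩
      · rw [List.length_append, put_length, List.length_finRange]
        have h5 : k * (k ^ G.deg i * (G.deg i + 2) + 1) ≤ k * (k ^ D * (D + 2) + 1) := by
          refine Nat.mul_le_mul_left _ (Nat.add_le_add_right (Nat.mul_le_mul ?_ ?_) _)
          · exact Nat.pow_le_pow_right hk (hD i)
          · exact Nat.add_le_add_right (hD i) _
        calc p.length + k * (k ^ G.deg i * (G.deg i + 2) + 1) ≤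
            t * (k * (k ^ D * (D + 2) + 1)) + k * (k ^ D * (D + 2) + 1) := Nat.add_le_add h1 h5
          _ = _ := by ring
      · intro j hj
        by_cases hji : j = i
        · subst hji
          exact ⟨σ, Function.update_self _ _ _⟩
        · rw [Function.update_of_ne hji]
          exact h2 j (mem_of_mem_insert_of_ne hj hji)
      · intro j hj j' hj' heq
        by_cases hji : j = i
        · by_cases hji' : j' = i
          · rw [hji, hji']
          · rw [hji, Function.update_self, Function.update_of_ne hji'] at heq
            exact absurd heq.symm (hσ j' (mem_of_mem_insert_of_ne hj' hji'))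
        · by_cases hji' : j' = i
          · rw [hji', Function.update_self, Function.update_of_ne hji] at heq
            exact absurd heq (hσ j (mem_of_mem_insert_of_ne hj hji))
          · rw [Function.update_of_ne hji, Function.update_of_ne hji'] at heq
            exact h3 j (mem_of_mem_insert_of_ne hj hji) j' (mem_of_mem_insert_of_ne hj' hji') heq
      · intro j hj τ hτ w u
        have hrun := put_run w sl i σ (by
            intro a ha
            refine hσ _ (hkid a) ?_
            rw [hslA _ (hkid a), ha]) (List.finRange k) (exec w p) (by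
            intro a v
            exact h4 _ (hkid a) _ (hslA _ (hkid a)) w v)
        have hex : exec w (p ++ put R sl i σ (List.finRange k)) =
            runs w (put R sl i σ (List.finRange k)) (exec w p) := by
          unfold exec
          rw [runs_append]
        rw [hex]
        by_cases hji : j = i
        · subst hji
          rw [Function.update_self] at hτ
          have : σ = τ := Sum.inl_injective hτ
          subst this
          exact hrun.1 u (List.mem_finRange u)
        · rw [Function.update_of_ne hji] at hτ
          have hjA := mem_of_mem_insert_of_ne hj hji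
          rw [hrun.2 τ u]
          · exact h4 j hjA τ hτ w u
          · intro h
            rw [h] at hτ
            exact hσ j hjA hτ

end Prog

end Pool.Agent.TH679.PD
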