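import Pool.Agent.TH679.PD.Peb
import Pool.Agent.W994.DE.Pyramid

/-!
Pebblings with few moves, and families of graphs which can be pebbled with polylogarithmically many
pebbles
-/

set_option autoImplicit false

namespace Pool.Agent.TH679.PD

open Finset
open scoped NNReal
open Pool.Agent.H564R3.PW (Instr runs exec syms)
open Pool.Agent.W994.DE (Dag pyramid pyrTop pyramid_pebbles)
open Pool.Agent.W994.DE.Dag

variable {G : Dag} {k : ℕ}

theorem exists_pred {s t : ℕ} {A : Finset G.V} (h : Peb G s t A) :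
    (∀ t' < t, ¬ Peb G s t' A) → 1 ≤ t →
      ∃ B, Peb G s (t - 1) B ∧ ∀ t' < t - 1, ¬ Peb G s t' B := by
  induction h with
  | start => intro _ h0; omega
  | remove t A i _ ih =>
    intro hmin h0
    exact ih (fun t' ht' hA => hmin t' ht' (Peb.remove t' A i hA)) h0
  | place t A i hA hk hs _ =>
    intro hmin _
    refine ⟨A, hA, fun t' ht' hA' => ?_⟩
    exact hmin (t' + 1) (by omega) (Peb.place t' A i hA' hk hs)

theorem exists_chain {s t : ℕ} {A : Finset G.V} (h : Peb G s t A)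
    (hmin : ∀ t' < t, ¬ Peb G s t' A) :
    ∀ j, j ≤ t → ∃ B, Peb G s (t - j) B ∧ ∀ t' < t - j, ¬ Peb G s t' B := by
  intro j
  induction j with
  | zero => intro _; exact ⟨A, h, hmin⟩
  | succ j ih =>
    intro hj
    obtain ⟨B, h1, h2⟩ := ih (by omega)
    have h3 := exists_pred h1 h2 (by omega)
    rwa [Nat.sub_sub] at h3

theorem card_small (V : Type) [Fintype V] [DecidableEq V] (s : ℕ) :
    Fintype.card {B : Finset V // B.card ≤ s} ≤ (Fintype.card V + 1) ^ s := by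
  classical
  have h1 : Fintype.card (Fin s → Option V) = (Fintype.card V + 1) ^ s := by
    rw [Fintype.card_fun, Fintype.card_option, Fintype.card_fin]
  rw [← h1]
  -- each small set is the image of a function
  have key : ∀ B : {B : Finset V // B.card ≤ s}, ∃ g : Fin s → Option V,
      ∀ v, v ∈ B.1 ↔ ∃ i, g i = some v := by
    intro B
    obtain ⟨B, hB⟩ := B
    have e : B ≃ Fin B.card := Fintype.equivFinOfCardEq (by rw [Fintype.card_coe])
    refine ⟨fun i => if h : i.val < B.card then some (e.symm ⟨i.val, h⟩ : B).1 else none, ?_⟩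
    intro v
    constructor
    · intro hv
      refine ⟨⟨(e ⟨v, hv⟩).val, lt_of_lt_of_le (e ⟨v, hv⟩).isLt hB⟩, ?_⟩
      have h2 : (e ⟨v, hv⟩).val < B.card := (e ⟨v, hv⟩).isLt
      simp only [h2, dif_pos, Fin.eta, Equiv.symm_apply_apply]
    · rintro ⟨i, hi⟩
      dsimp only at hi
      split_ifs at hi with h
      rw [Option.some.injEq] at hi
      rw [← hi]
      exact (e.symm ⟨i.val, h⟩).2
  choose g hg using key
  refine Fintype.card_le_of_injective g ?_
  intro B B' h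
  apply Subtype.ext
  ext v
  rw [hg B v, hg B' v, h]

/-- A graph that can be pebbled with `s` pebbles can be pebbled so with few moves. -/
theorem exists_peb_few {s : ℕ} {r : G.V} (h : G.Pebblable s r) :
    ∃ t A, r ∈ A ∧ Peb G s t A ∧ t < (Fintype.card G.V + 1) ^ s := by
  classical
  obtain ⟨t₀, A, hrA, hA₀⟩ := exists_peb h
  have hex : ∃ t, Peb G s t A := ⟨t₀, hA₀⟩
  obtain ⟨hA, hmin⟩ : Peb G s (Nat.find hex) A ∧ ∀ t' < Nat.find hex, ¬ Peb G s t' A :=
    ⟨Nat.find_spec hex, fun t' ht' => Nat.find_min hex ht'⟩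
  set t := Nat.find hex
  refine ⟨t, A, hrA, hA, ?_⟩
  have hch : ∀ j : Fin (t + 1), ∃ B, Peb G s j.val B ∧ ∀ t' < j.val, ¬ Peb G s t' B := by
    intro j
    have h1 := exists_chain hA hmin (t - j.val) (Nat.sub_le _ _)
    have h2 : t - (t - j.val) = j.val := by have := j.2; omega
    rwa [h2] at h1
  choose f hf1 hf2 using hch
  have h3 : Fintype.card (Fin (t + 1)) ≤ Fintype.card {B : Finset G.V // B.card ≤ s} := by
    refine Fintype.card_le_of_injective (fun j => ⟨f j, (hf1 j).card_le⟩) ?_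
    intro j j' hjj
    have h4 : f j = f j' := congrArg Subtype.val hjj
    rcases lt_trichotomy j.val j'.val with h5 | h5 | h5
    · exact absurd (h4 ▸ hf1 j) (hf2 j' _ h5)
    · exact Fin.ext h5
    · exact absurd (h4 ▸ hf1 j' : Peb G s j'.val (f j)) (hf2 j _ h5)
  rw [Fintype.card_fin] at h3
  exact lt_of_lt_of_le (Nat.lt_of_succ_le h3) (card_small G.V s)

/-- The rounded binary logarithm of the number of the nodes. -/
noncomputable def lg (G : Dag) : ℕ := Nat.clog 2 (Fintype.card G.V + 2)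

theorem two_le_lg (r : G.V) : 2 ≤ lg G := by
  have h1 : 0 < Fintype.card G.V := Fintype.card_pos_iff.2 ⟨r⟩
  have h2 : Nat.clog 2 3 ≤ Nat.clog 2 (Fintype.card G.V + 2) :=
    Nat.clog_mono_right 2 (by omega)
  have h3 : Nat.clog 2 3 = 2 := by
    refine le_antisymm ?_ ?_
    · exact Nat.clog_le_of_le_pow (by norm_num)
    · have : ¬ Nat.clog 2 3 ≤ 1 := by
        intro h
        have := (Nat.clog_le_iff_le_pow (by norm_num : 1 < 2)).1 h
        norm_num at this
      omega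
  rw [h3] at h2
  exact h2

theorem card_lt_lg (G : Dag) : Fintype.card G.V + 1 ≤ 2 ^ lg G :=
  (Nat.le_succ _).trans (Nat.le_pow_clog (by norm_num) _)

theorem mul_pow_le {l c M : ℕ} (hl : 2 ≤ l) : M * l ^ c ≤ l ^ (c + M) := by
  rw [pow_add, mul_comm]
  refine Nat.mul_le_mul_left _ ?_
  exact (Nat.lt_two_pow_self).le.trans (Nat.pow_le_pow_left hl M)

theorem reg_arith {l c k : ℕ} (hl : 2 ≤ l) : l ^ c * k + 1 ≤ l ^ (c + (k + 1)) := by
  have h1 := mul_pow_le (M := k + 1) (c := c) hl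
  have h2 : 1 ≤ l ^ c := Nat.one_le_pow _ _ (by omega)
  nlinarith

theorem step_arith {l c M N t : ℕ} (hl : 2 ≤ l) (hN : N + 1 ≤ 2 ^ l)
    (ht : t < (N + 1) ^ (l ^ c)) : t * M ≤ 2 ^ l ^ (c + (M + 2)) := by
  have h1 : t ≤ 2 ^ (l * l ^ c) := by
    rw [pow_mul]
    exact ht.le.trans (Nat.pow_le_pow_left hN _)
  have h2 : M ≤ 2 ^ M := (Nat.lt_two_pow_self).le
  calc t * M ≤ 2 ^ (l * l ^ c) * 2 ^ M := Nat.mul_le_mul h1 h2
    _ = 2 ^ (l * l ^ c + M) := (pow_add _ _ _).symm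
    _ ≤ 2 ^ l ^ (c + (M + 2)) := by
        refine Nat.pow_le_pow_right (by norm_num) ?_
        have h3 := mul_pow_le (M := M + 1) (c := c + 1) hl
        have h4 : 1 ≤ l ^ (c + 1) := Nat.one_le_pow _ _ (by omega)
        have h5 : l * l ^ c = l ^ (c + 1) := by ring
        have h6 : c + 1 + (M + 1) = c + (M + 2) := by ring
        rw [h5, ← h6]
        nlinarith

theorem peb_arith {l c K L : ℕ} (hl : 2 ≤ l) (hK : K ≤ l ^ c) (hL : L ≤ 2 ^ l ^ c) :
    4 * (K + Nat.clog 2 (L + 1)) * Nat.clog 2 L + 1 ≤ l ^ (2 * c + 4) := by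
  have h1 : 1 ≤ l ^ c := Nat.one_le_pow _ _ (by omega)
  have h2 : Nat.clog 2 L ≤ l ^ c := Nat.clog_le_of_le_pow hL
  have h3 : Nat.clog 2 (L + 1) ≤ l ^ c + 1 := by
    refine Nat.clog_le_of_le_pow ?_
    have : 1 ≤ 2 ^ l ^ c := Nat.one_le_two_pow
    rw [pow_succ]
    omega
  have h4 : 4 * (K + Nat.clog 2 (L + 1)) * Nat.clog 2 L ≤ 4 * (3 * l ^ c) * l ^ c := by
    refine Nat.mul_le_mul (Nat.mul_le_mul_left _ ?_) h2
    omega
  have h5 : 16 ≤ l ^ 4 := by
    calc 16 = 2 ^ 4 := by norm_num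
      _ ≤ l ^ 4 := Nat.pow_le_pow_left hl 4
  have h6 : l ^ (2 * c + 4) = l ^ c * l ^ c * l ^ 4 := by ring
  rw [h6]
  nlinarith [Nat.mul_le_mul h1 h1]

/-- The lower bound with logarithms. -/
theorem peb_lower_log {R ρ : Type} [Zero R] [Fintype ρ] [DecidableEq ρ] {r : G.V} {u₀ : Fin k}
    {p : List (Instr R (Rule G k) ρ)} {o : ρ} (hT : Good (syms p o) r u₀) (hk : 2 ≤ k) :
    G.Pebblable (4 * (Fintype.card ρ + Nat.clog 2 (p.length + 1)) * Nat.clog 2 p.length + 1) r := by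
  refine peb_lower hT ?_
  have h1 : p.length + 1 ≤ 2 ^ Nat.clog 2 (p.length + 1) := Nat.le_pow_clog (by norm_num) _
  calc (p.length + 1) * 2 ^ Fintype.card ρ
      ≤ 2 ^ Nat.clog 2 (p.length + 1) * 2 ^ Fintype.card ρ := Nat.mul_le_mul_right _ h1
    _ = 2 ^ (Fintype.card ρ + Nat.clog 2 (p.length + 1)) := by rw [← pow_add, add_comm]
    _ < 2 ^ (Fintype.card ρ + Nat.clog 2 (p.length + 1) + 1) :=
        Nat.pow_lt_pow_right (by norm_num) (Nat.lt_succ_self _)
    _ ≤ k ^ (Fintype.card ρ + Nat.clog 2 (p.length + 1) + 1) := Nat.pow_le_pow_left hk _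

theorem pebblable_mono {s s' : ℕ} (h : s ≤ s') {r : G.V} (hr : G.Pebblable s r) :
    G.Pebblable s' r := by
  obtain ⟨B, h1, h2⟩ := hr
  exact ⟨B, h1, h2.mono h⟩

theorem polylog_lower {R ρ : Type} [Zero R] [Fintype ρ] [DecidableEq ρ] {r : G.V} {u₀ : Fin k}
    {p : List (Instr R (Rule G k) ρ)} {o : ρ} (hT : Good (syms p o) r u₀) (hk : 2 ≤ k) {c : ℕ}
    (hK : Fintype.card ρ ≤ lg G ^ c) (hL : p.length ≤ 2 ^ lg G ^ c) :
    G.Pebblable (lg G ^ (2 * c + 4)) r :=
  pebblable_mono (peb_arith (two_le_lg r) hK hL) (peb_lower_log hT hk)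

/-- Programs from pebblings: one register per pebble and letter, and another one. -/
theorem peb_prog {R : Type} [CommSemiring R] (hk : 1 ≤ k) {D : ℕ} (hD : ∀ i, G.deg i ≤ D)
    {s t : ℕ} {A : Finset G.V} (h : Peb G s t A) {r : G.V} (hr : r ∈ A) :
    ∃ (p : List (Instr R (Rule G k) (PReg s k))) (o : Fin k → PReg s k),
      p.length ≤ t * (k * (k ^ D * (D + 2) + 1)) ∧
      ∀ (w : Rule G k → R) (u : Fin k), exec w p (o u) = deriv w r u := by
  obtain ⟨p, slot, h1, h2, _, h4⟩ := peb_upper (R := R) hk hD h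
  obtain ⟨σ, hσ⟩ := h2 r hr
  exact ⟨p, fun u => Sum.inl (σ, u), h1, fun w u => h4 r hr σ hσ w u⟩

theorem card_PReg (s k : ℕ) : Fintype.card (PReg s k) = s * k + 1 := by
  rw [Fintype.card_sum, Fintype.card_prod, Fintype.card_fin, Fintype.card_fin, Fintype.card_unit]

theorem polylog_upper (R : Type) [CommSemiring R] (hk : 1 ≤ k) {D : ℕ} (hD : ∀ i, G.deg i ≤ D)
    {c : ℕ} {r : G.V} (h : G.Pebblable (lg G ^ c) r) :
    ∃ (ρ : Type) (_ : Fintype ρ) (_ : DecidableEq ρ) (p : List (Instr R (Rule G k) ρ))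
      (o : Fin k → ρ),
      Fintype.card ρ ≤ lg G ^ (c + (k + 1)) ∧
      p.length ≤ 2 ^ lg G ^ (c + (k * (k ^ D * (D + 2) + 1) + 2)) ∧
      ∀ (w : Rule G k → R) (u : Fin k), exec w p (o u) = deriv w r u := by
  obtain ⟨t, A, hrA, hA, ht⟩ := exists_peb_few h
  obtain ⟨p, o, h1, h2⟩ := peb_prog (R := R) hk hD hA hrA
  have hl := two_le_lg r
  refine ⟨PReg (lg G ^ c) k, inferInstance, inferInstance, p, o, ?_, ?_, h2⟩
  · rw [card_PReg]
    exact reg_arith hl
  · exact h1.trans (step_arith hl (card_lt_lg G) ht)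

end Pool.Agent.TH679.PD
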