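import Pool.Agent.TH679.PD.Hist
import Pool.Agent.W994.DE.Interval

/-!
A labelling for which only few nodes are open at any time.
-/

set_option autoImplicit false

namespace Pool.Agent.TH679.PD

open Finset
open Pool.Agent.H564R3.PW (Instr exec syms)
open Pool.Agent.W994.DE (Dag)
open Pool.Agent.W994.DE.Dag

variable {G : Dag} {k : ℕ}

/-- how often `(j, v)` is the head of a rule minus how often it is a child of a rule -/
def bal (j : G.V) (v : Fin k) (q : Rule G k → ℕ) : ℤ := (dot q (hd j v) : ℤ) - dot q (ch j v)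

theorem bal_zero (j : G.V) (v : Fin k) : bal j v (0 : Rule G k → ℕ) = 0 := by
  simp [bal, dot_zero]

theorem bal_add (j : G.V) (v : Fin k) (q q' : Rule G k → ℕ) :
    bal j v (q + q') = bal j v q + bal j v q' := by
  simp only [bal, dot_add]
  push_cast
  ring

theorem bal_cert (j : G.V) (v : Fin k) (q : Rule G k → ℕ) :
    bal j v q = (dot q (W1 j v) : ℤ) - dot q (fun x => G.deg x.1 + 1) := by
  have h : dot q (W1 j v) + dot q (ch j v) = dot q (fun x => G.deg x.1 + 1) + dot q (hd j v) := by
    unfold dot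
    rw [← Finset.sum_add_distrib, ← Finset.sum_add_distrib]
    refine Finset.sum_congr rfl fun x _ => ?_
    rw [← mul_add, ← mul_add, W1_add]
  unfold bal
  omega

theorem use_dot {ρ : Type} {T : Set (Rule G k → ℕ)} {r : G.V} {u₀ : Fin k} (hT : Good T r u₀)
    {lam lam' : G.V → Fin k} (hl : lam r = u₀) (hl' : lam' r = u₀)
    {s : ρ → Set (Rule G k → ℕ)} {i : ρ} {q q' : Rule G k → ℕ}
    (h : Use T (Mon lam r) s (i, q)) (h' : Use T (Mon lam' r) s (i, q'))
    {W : Rule G k → ℕ} {S : G.V → Fin k → ℕ} (hW : Cert W S) : dot q W = dot q' W := by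
  obtain ⟨h1, c, h2, h3⟩ := h
  obtain ⟨h1', c', h2', h3'⟩ := h'
  dsimp only at h1 h2 h3 h1' h2' h3'
  have e1 := hT.ge W S hW _ (h3 q' h1')
  have e2 := hT.ge W S hW _ (h3' q h1)
  have e3 := dot_Mon hW lam r
  have e4 := dot_Mon hW lam' r
  rw [← h2, dot_add, hl] at e3
  rw [← h2', dot_add, hl'] at e4
  rw [dot_add] at e1 e2
  omega

theorem use_bal {ρ : Type} {T : Set (Rule G k → ℕ)} {r : G.V} {u₀ : Fin k} (hT : Good T r u₀)
    {lam lam' : G.V → Fin k} (hl : lam r = u₀) (hl' : lam' r = u₀)
    {s : ρ → Set (Rule G k → ℕ)} {i : ρ} {q q' : Rule G k → ℕ}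
    (h : Use T (Mon lam r) s (i, q)) (h' : Use T (Mon lam' r) s (i, q'))
    (j : G.V) (v : Fin k) : bal j v q = bal j v q' := by
  rw [bal_cert, bal_cert, use_dot hT hl hl' h h' (cert_W1 j v),
    use_dot hT hl hl' h h' (cert_size (fun i => G.deg i + 1))]

theorem use_supp {ρ : Type} {T : Set (Rule G k → ℕ)} {r : G.V}
    {lam : G.V → Fin k} {s : ρ → Set (Rule G k → ℕ)} {e : ρ × (Rule G k → ℕ)}
    (h : Use T (Mon lam r) s e) : Supp lam e.2 := by
  obtain ⟨_, c, h2, _⟩ := h
  intro x hx
  refine Mon_supp lam r x ?_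
  rw [← h2, Pi.add_apply]
  omega

theorem bal_supp {lam : G.V → Fin k} {q : Rule G k → ℕ} (h : Supp lam q) (j : G.V) (v : Fin k) :
    bal j v q = if lam j = v then (q (xl lam j) : ℤ) - ∑ i, (q (xl lam i) : ℤ) * E G i j else 0 := by
  have h1 : dot q (hd j v) = if lam j = v then q (xl lam j) else 0 := by
    rw [dot_supp h, Finset.sum_eq_single j]
    · show q (xl lam j) * (if j = j ∧ lam j = v then 1 else 0) = _
      by_cases hv : lam j = v
      · rw [if_pos ⟨rfl, hv⟩, if_pos hv, mul_one]
      · rw [if_neg (fun h => hv h.2), if_neg hv, mul_zero]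
    · intro i _ hi
      show q (xl lam i) * (if i = j ∧ lam i = v then 1 else 0) = _
      rw [if_neg (fun h => hi h.1), mul_zero]
    · intro h; exact absurd (mem_univ _) h
  have h2 : dot q (ch j v) = if lam j = v then ∑ i, q (xl lam i) * E G i j else 0 := by
    rw [dot_supp h]
    by_cases hv : lam j = v
    · rw [if_pos hv]
      refine Finset.sum_congr rfl fun i _ => ?_
      congr 1
      unfold ch E
      refine Finset.sum_congr rfl fun a _ => ?_
      show (if G.kid i a = j ∧ lam (G.kid i a) = v then 1 else 0) = _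
      by_cases ha : G.kid i a = j
      · rw [if_pos ha, if_pos ⟨ha, by rw [ha]; exact hv⟩]
      · rw [if_neg ha, if_neg (fun h => ha h.1)]
    · rw [if_neg hv]
      refine Finset.sum_eq_zero fun i _ => ?_
      have : ch j v (xl lam i) = 0 := by
        unfold ch
        refine Finset.sum_eq_zero fun a _ => ?_
        show (if G.kid i a = j ∧ lam (G.kid i a) = v then 1 else 0) = _
        rw [if_neg]
        rintro ⟨h1, h2⟩
        rw [h1] at h2
        exact hv h2
      rw [this, mul_zero]
  unfold bal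
  rw [h1, h2]
  split_ifs
  · push_cast
    ring
  · rfl

/-- the open nodes of a list of monomials -/
noncomputable def opn {ρ : Type} (k : ℕ) (r : G.V) (D : List (ρ × (Rule G k → ℕ))) :
    Finset G.V := by
  classical
  exact univ.filter fun j => j ≠ r ∧ ∃ e ∈ D, ∃ v, bal j v e.2 ≠ 0

theorem mem_opn {ρ : Type} {r : G.V} {D : List (ρ × (Rule G k → ℕ))} {j : G.V} :
    j ∈ opn k r D ↔ j ≠ r ∧ ∃ e ∈ D, ∃ v, bal j v e.2 ≠ 0 := by
  classical
  simp [opn]

theorem bal_tot {ρ : Type} {r : G.V} {D : List (ρ × (Rule G k → ℕ))} {j : G.V} (hj : j ≠ r)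
    (h : j ∉ opn k r D) (v : Fin k) : bal j v (tot D) = 0 := by
  have h1 : ∀ e ∈ D, bal j v e.2 = 0 := by
    intro e he
    by_contra hne
    exact h (mem_opn.2 ⟨hj, e, he, v, hne⟩)
  clear h
  induction D with
  | nil => rw [tot_nil, bal_zero]
  | cons e D ih =>
    rw [tot_cons, bal_add, h1 e List.mem_cons_self, zero_add]
    exact ih fun e' he' => h1 e' (List.mem_cons_of_mem _ he')

theorem supp_tot {ρ : Type} {lam : G.V → Fin k} {D : List (ρ × (Rule G k → ℕ))}
    (h : ∀ e ∈ D, Supp lam e.2) : Supp lam (tot D) := by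
  induction D with
  | nil =>
    intro x hx
    exact absurd rfl hx
  | cons e D ih =>
    intro x hx
    rw [tot_cons, Pi.add_apply] at hx
    by_cases h1 : e.2 x = 0
    · exact ih (fun e' he' => h e' (List.mem_cons_of_mem _ he')) x (by omega)
    · exact h e List.mem_cons_self x h1

/-- Conservation at the nodes that are not open. -/
theorem conserve {ρ : Type} {r : G.V} {lam : G.V → Fin k} {D : List (ρ × (Rule G k → ℕ))}
    (h : ∀ e ∈ D, Supp lam e.2) {j : G.V} (hj : j ≠ r) (ho : j ∉ opn k r D) :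
    tot D (xl lam j) = ∑ i, tot D (xl lam i) * E G i j := by
  have h1 := bal_tot hj ho (lam j)
  rw [bal_supp (supp_tot h), if_pos rfl, sub_eq_zero] at h1
  exact_mod_cast h1

theorem card_agree (Q : Finset G.V)
    (g : G.V → Fin k) (L : Finset (G.V → Fin k)) (hL : ∀ lam ∈ L, ∀ j ∈ Q, lam j = g j) :
    L.card ≤ k ^ (Fintype.card G.V - Q.card) := by
  classical
  have h1 : L ⊆ Fintype.piFinset fun j => if j ∈ Q then {g j} else univ := by
    intro lam hlam
    rw [Fintype.mem_piFinset]
    intro j
    by_cases hj : j ∈ Q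
    · rw [if_pos hj, mem_singleton]
      exact hL lam hlam j hj
    · rw [if_neg hj]
      exact mem_univ _
  refine (card_le_card h1).trans (le_of_eq ?_)
  rw [Fintype.card_piFinset]
  have h2 : ∀ j, (if j ∈ Q then ({g j} : Finset (Fin k)) else univ).card =
      if j ∈ Q then 1 else k := by
    intro j
    split_ifs
    · exact card_singleton _
    · rw [card_univ, Fintype.card_fin]
  rw [Finset.prod_congr rfl fun j _ => h2 j, Finset.prod_ite, Finset.prod_const_one, one_mul,
    Finset.prod_const]
  congr 1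
  rw [Finset.filter_not, Finset.filter_mem_eq_inter, Finset.univ_inter,
    ← Finset.compl_eq_univ_sdiff, Finset.card_compl]

/-- The history of a labelling. -/
def IsHist {R ρ : Type} [Zero R] [DecidableEq ρ] (p : List (Instr R (Rule G k) ρ)) (o : ρ)
    (M : Rule G k → ℕ) (D : ℕ → List (ρ × (Rule G k → ℕ))) : Prop :=
  tot (D p.length) = M ∧ D 0 = [] ∧ (D p.length = [(o, M)]) ∧
      (∀ t ≤ p.length, ∀ e ∈ D t, Use (syms p o) M (syms (p.take t)) e) ∧
      ∀ t < p.length, ∃ y : Rule G k → ℕ, tot (D (t + 1)) = y + tot (D t) ∧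
        ∀ x, y x ≠ 0 → ∃ i, p[t]? = some (.load i x)

/-- Counting: some labelling has few open nodes at any time. -/
theorem exists_lam {R ρ : Type} [Zero R] [Fintype ρ] [DecidableEq ρ] {r : G.V} {u₀ : Fin k}
    {p : List (Instr R (Rule G k) ρ)} {o : ρ} (hT : Good (syms p o) r u₀) {q : ℕ}
    (hq : (p.length + 1) * 2 ^ Fintype.card ρ < k ^ (q + 1)) :
    ∃ lam : G.V → Fin k, lam r = u₀ ∧ ∃ D, IsHist p o (Mon lam r) D ∧
      ∀ t ≤ p.length, (opn k r (D t)).card ≤ q := by
  classical
  by_contra hcon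
  push Not at hcon
  have hex : ∀ lam : G.V → Fin k, ∃ D : ℕ → List (ρ × (Rule G k → ℕ)), ∃ t : ℕ, lam r = u₀ →
      IsHist p o (Mon lam r) D ∧ t ≤ p.length ∧ q < (opn k r (D t)).card := by
    intro lam
    by_cases hlam : lam r = u₀
    · obtain ⟨D, hD⟩ := history_mem (hT.mem lam hlam)
      obtain ⟨t, ht, hlt⟩ := hcon lam hlam D hD
      exact ⟨D, t, fun _ => ⟨hD, ht, hlt⟩⟩
    · exact ⟨fun _ => [], 0, fun h => absurd h hlam⟩
  choose D t hDt using hex
  set Lam : Finset (G.V → Fin k) := univ.filter fun lam => lam r = u₀ with hLam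
  set f : (G.V → Fin k) → Fin (p.length + 1) × Finset ρ := fun lam =>
    (⟨min (t lam) p.length, by omega⟩, univ.filter fun i => ∃ m, (i, m) ∈ D lam (t lam)) with hf
  have hk : 0 < k := Nat.lt_of_le_of_lt (Nat.zero_le _) u₀.2
  set n := Fintype.card G.V with hn
  -- the fibres
  have hfib : ∀ c : Fin (p.length + 1) × Finset ρ,
      (Lam.filter fun lam => f lam = c).card ≤ k ^ (n - (q + 2)) := by
    intro c
    rcases (Lam.filter fun lam => f lam = c).eq_empty_or_nonempty with h0 | ⟨lam₀, h0⟩
    · rw [h0, card_empty]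
      exact Nat.zero_le _
    · rw [mem_filter, hLam, mem_filter] at h0
      obtain ⟨⟨_, hl0⟩, hc0⟩ := h0
      obtain ⟨⟨a1, a2, a3, a4, a5⟩, b1, b2⟩ := hDt lam₀ hl0
      set Q := insert r (opn k r (D lam₀ (t lam₀))) with hQ
      have hrQ : r ∉ opn k r (D lam₀ (t lam₀)) := fun h => (mem_opn.1 h).1 rfl
      have hQc : q + 2 ≤ Q.card := by
        rw [hQ, card_insert_of_notMem hrQ]
        omega
      refine (card_agree Q lam₀ _ ?_).trans (Nat.pow_le_pow_right hk (by omega))
      intro lam hlam j hj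
      rw [mem_filter, hLam, mem_filter] at hlam
      obtain ⟨⟨_, hl⟩, hc⟩ := hlam
      obtain ⟨⟨c1, c2, c3, c4, c5⟩, d1, d2⟩ := hDt lam hl
      rw [hQ, mem_insert] at hj
      rcases hj with hj | hj
      · rw [hj, hl, hl0]
      · obtain ⟨hjr, e, he, v, hv⟩ := mem_opn.1 hj
        have hcc : f lam = f lam₀ := hc.trans hc0.symm
        rw [hf] at hcc
        simp only [Prod.mk.injEq, Fin.mk.injEq] at hcc
        obtain ⟨hc1, hc2⟩ := hcc
        rw [min_eq_left d1, min_eq_left b1] at hc1
        have he' : e.1 ∈ univ.filter fun i => ∃ m, (i, m) ∈ D lam₀ (t lam₀) := by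
          rw [mem_filter]
          exact ⟨mem_univ _, e.2, he⟩
        rw [← hc2, mem_filter] at he'
        obtain ⟨_, m, hm⟩ := he'
        have u1 := a4 (t lam₀) b1 e he
        have u2 := c4 (t lam) d1 (e.1, m) hm
        rw [hc1] at u2
        have u3 := use_bal hT hl0 hl (q := e.2) (q' := m) (i := e.1) u1 u2 j v
        have hv' : bal j v m ≠ 0 := by rw [← u3]; exact hv
        rw [bal_supp (use_supp u1)] at hv
        have u4 := use_supp u2
        rw [bal_supp u4] at hv'
        by_contra hne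
        by_cases g1 : lam₀ j = v
        · by_cases g2 : lam j = v
          · exact hne (g2.trans g1.symm)
          · rw [if_neg g2] at hv'
            exact hv' rfl
        · rw [if_neg g1] at hv
          exact hv rfl
  have hLamc : Lam.card = k ^ (n - 1) := by
    have h1 : Lam = Fintype.piFinset fun j => if j = r then {u₀} else univ := by
      ext lam
      rw [hLam, mem_filter, Fintype.mem_piFinset]
      constructor
      · rintro ⟨_, h⟩ j
        by_cases hj : j = r
        · rw [if_pos hj, mem_singleton, hj, h]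
        · rw [if_neg hj]
          exact mem_univ _
      · intro h
        refine ⟨mem_univ _, ?_⟩
        have := h r
        rwa [if_pos rfl, mem_singleton] at this
    rw [h1, Fintype.card_piFinset]
    have h2 : ∀ j, (if j = r then ({u₀} : Finset (Fin k)) else univ).card =
        if j = r then 1 else k := by
      intro j
      split_ifs
      · exact card_singleton _
      · rw [card_univ, Fintype.card_fin]
    rw [Finset.prod_congr rfl fun j _ => h2 j, Finset.prod_ite, Finset.prod_const_one, one_mul,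
      Finset.prod_const]
    congr 1
    rw [Finset.filter_not, Finset.filter_eq' _ r, if_pos (mem_univ r),
      Finset.card_sdiff_of_subset (subset_univ _), card_singleton, card_univ]
  have hsum : Lam.card ≤ ((p.length + 1) * 2 ^ Fintype.card ρ) * k ^ (n - (q + 2)) := by
    have h1 := Finset.card_eq_sum_card_fiberwise (f := f) (s := Lam)
      (t := (univ : Finset (Fin (p.length + 1) × Finset ρ))) fun _ _ => mem_coe.2 (mem_univ _)
    rw [h1]
    refine (Finset.sum_le_card_nsmul _ _ _ fun c _ => hfib c).trans (le_of_eq ?_)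
    rw [card_univ, Fintype.card_prod, Fintype.card_fin, Fintype.card_finset, smul_eq_mul]
  -- a labelling, to see that there are at least q + 2 nodes
  have hn2 : q + 2 ≤ n := by
    set lam : G.V → Fin k := fun _ => u₀ with hlamdef
    obtain ⟨_, _, b2⟩ := hDt lam rfl
    have hrQ : r ∉ opn k r (D lam (t lam)) := fun h => (mem_opn.1 h).1 rfl
    have h1 := Finset.card_le_univ (insert r (opn k r (D lam (t lam))))
    rw [card_insert_of_notMem hrQ] at h1
    omega
  rw [hLamc] at hsum
  have h3 : n - 1 = (q + 1) + (n - (q + 2)) := by omega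
  rw [h3, pow_add] at hsum
  have h4 : 0 < k ^ (n - (q + 2)) := Nat.pow_pos hk
  have h5 := Nat.le_of_mul_le_mul_right hsum h4
  omega

end Pool.Agent.TH679.PD
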