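import Pool.Agent.TH679.PD.Defs

/-!
The derivation tree of a labelling, and weights that are constant on all derivation trees.
-/

set_option autoImplicit false

namespace Pool.Agent.TH679.PD

open Finset
open Pool.Agent.W994.DE (Dag)
open Pool.Agent.W994.DE.Dag

variable {G : Dag} {k : ℕ}

/-- The number of directed paths from `r` to `j`. -/
def cnt (G : Dag) (j : G.V) (r : G.V) : ℕ :=
  (if r = j then 1 else 0) + ∑ a, cnt G j (G.kid r a)
termination_by G.rank r
decreasing_by exact G.rank_lt r a

theorem cnt_eq (j r : G.V) :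
    cnt G j r = (if r = j then 1 else 0) + ∑ a, cnt G j (G.kid r a) := by
  rw [cnt]

/-- The number of arcs from `i` to `j`. -/
def E (G : Dag) (i j : G.V) : ℕ := ∑ a, if G.kid i a = j then 1 else 0

theorem cnt_step (j r : G.V) :
    cnt G j r = (if r = j then 1 else 0) + ∑ i, cnt G i r * E G i j := by
  refine rank_induction (p := fun r => cnt G j r = (if r = j then 1 else 0) +
    ∑ i, cnt G i r * E G i j) (fun r ih => ?_) r
  have h1 : ∀ i, cnt G i r * E G i j = (if r = i then E G i j else 0) +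
      ∑ a, cnt G i (G.kid r a) * E G i j := by
    intro i
    rw [cnt_eq i r, add_mul, ite_mul, one_mul, zero_mul, Finset.sum_mul]
  rw [cnt_eq]
  congr 1
  simp_rw [h1]
  rw [Finset.sum_add_distrib, Finset.sum_comm, Finset.sum_ite_eq, if_pos (mem_univ _), E,
    ← Finset.sum_add_distrib]
  exact Finset.sum_congr rfl fun a _ => ih a

theorem cnt_self_pos (r : G.V) : 0 < cnt G r r := by
  rw [cnt_eq, if_pos rfl]
  omega

theorem E_kid_pos (i : G.V) (a : Fin (G.deg i)) : 0 < E G i (G.kid i a) := by
  rw [E]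
  refine Finset.sum_pos' (fun _ _ => Nat.zero_le _) ⟨a, mem_univ _, ?_⟩
  rw [if_pos rfl]
  exact one_pos

theorem cnt_kid_pos {i r : G.V} (h : 0 < cnt G i r) (a : Fin (G.deg i)) :
    0 < cnt G (G.kid i a) r := by
  rw [cnt_step (G.kid i a) r]
  have h1 := Finset.single_le_sum (f := fun i' => cnt G i' r * E G i' (G.kid i a))
    (fun _ _ => Nat.zero_le _) (mem_univ i)
  have h2 : 0 < cnt G i r * E G i (G.kid i a) := Nat.mul_pos h (E_kid_pos i a)
  have h3 : cnt G i r * E G i (G.kid i a) ≤ ∑ i', cnt G i' r * E G i' (G.kid i a) := h1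
  omega

theorem cnt_rank {i r : G.V} (h : 0 < cnt G i r) : i = r ∨ G.rank i < G.rank r := by
  revert h
  refine rank_induction (p := fun r => 0 < cnt G i r → i = r ∨ G.rank i < G.rank r)
    (fun r ih h => ?_) r
  by_cases hir : r = i
  · exact Or.inl hir.symm
  · right
    rw [cnt_eq, if_neg hir, zero_add] at h
    obtain ⟨a, _, ha⟩ := Finset.exists_ne_zero_of_sum_ne_zero h.ne'
    have h1 := G.rank_lt r a
    rcases ih a (Nat.pos_of_ne_zero ha) with h2 | h2
    · rw [h2]; exact h1
    · omega

/-- The rule at the node `i` that is given by the labelling `lam`. -/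
def xl (lam : G.V → Fin k) (i : G.V) : Rule G k := ⟨i, lam i, fun a => lam (G.kid i a)⟩

theorem xl_fst (lam : G.V → Fin k) (i : G.V) : (xl lam i).1 = i := rfl

theorem xl_inj {lam : G.V → Fin k} {i j : G.V} (h : xl lam i = xl lam j) : i = j :=
  congrArg Sigma.fst h

/-- The exponent vector of the derivation tree of `(r, lam r)` all of whose rules agree with the
labelling `lam`. -/
def Mon (lam : G.V → Fin k) (r : G.V) : Rule G k → ℕ :=
  fun x => if x = xl lam x.1 then cnt G x.1 r else 0

theorem Mon_xl (lam : G.V → Fin k) (r i : G.V) : Mon lam r (xl lam i) = cnt G i r := by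
  unfold Mon
  rw [xl_fst, if_pos rfl]

/-- The weight of an exponent vector. -/
def dot {X : Type} [Fintype X] (m W : X → ℕ) : ℕ := ∑ x, m x * W x

theorem dot_add {X : Type} [Fintype X] (m m' W : X → ℕ) : dot (m + m') W = dot m W + dot m' W := by
  simp [dot, add_mul, Finset.sum_add_distrib]

theorem dot_zero {X : Type} [Fintype X] (W : X → ℕ) : dot 0 W = 0 := by
  simp [dot]

/-- A vector that is supported on the rules of the labelling `lam`. -/
def Supp (lam : G.V → Fin k) (m : Rule G k → ℕ) : Prop := ∀ x, m x ≠ 0 → x = xl lam x.1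

theorem dot_supp {lam : G.V → Fin k} {m : Rule G k → ℕ} (h : Supp lam m) (W : Rule G k → ℕ) :
    dot m W = ∑ i, m (xl lam i) * W (xl lam i) := by
  classical
  unfold dot
  symm
  refine Finset.sum_of_injOn (xl lam) ?_ ?_ ?_ ?_
  · intro i _ j _ hij
    exact xl_inj hij
  · intro i _
    exact Finset.mem_coe.2 (mem_univ _)
  · intro x _ hx
    by_contra hne
    have h1 : m x ≠ 0 := fun h0 => hne (by rw [h0, zero_mul])
    refine hx ⟨x.1, Finset.mem_coe.2 (mem_univ _), (h x h1).symm⟩
  · intro i _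
    rfl

theorem Mon_supp (lam : G.V → Fin k) (r : G.V) : Supp lam (Mon lam r) := by
  intro x hx
  unfold Mon at hx
  by_contra h
  rw [if_neg h] at hx
  exact hx rfl

/-- A weight of the rules such that all derivation trees of `(i, u)` have the weight `S i u`. -/
def Cert (W : Rule G k → ℕ) (S : G.V → Fin k → ℕ) : Prop :=
  ∀ (i : G.V) (u : Fin k) (φ : Fin (G.deg i) → Fin k),
    W ⟨i, u, φ⟩ + ∑ a, S (G.kid i a) (φ a) = S i u

theorem dot_Mon {W : Rule G k → ℕ} {S : G.V → Fin k → ℕ} (hW : Cert W S) (lam : G.V → Fin k)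
    (r : G.V) : dot (Mon lam r) W = S r (lam r) := by
  rw [dot_supp (Mon_supp lam r)]
  simp_rw [Mon_xl]
  refine rank_induction (p := fun r => ∑ i, cnt G i r * W (xl lam i) = S r (lam r))
    (fun r ih => ?_) r
  have h1 : ∀ i, cnt G i r * W (xl lam i) = (if r = i then W (xl lam i) else 0) +
      ∑ a, cnt G i (G.kid r a) * W (xl lam i) := by
    intro i
    rw [cnt_eq i r, add_mul, ite_mul, one_mul, zero_mul, Finset.sum_mul]
  simp_rw [h1]
  rw [Finset.sum_add_distrib, Finset.sum_comm, Finset.sum_ite_eq, if_pos (mem_univ _),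
    Finset.sum_congr rfl fun a _ => ih a]
  exact hW r (lam r) fun a => lam (G.kid r a)

/-! ### Three families of certificates -/

/-- the size of a derivation tree if the rules at `i` have the weight `A i` -/
def size (G : Dag) (A : G.V → ℕ) (i : G.V) : ℕ := A i + ∑ a, size G A (G.kid i a)
termination_by G.rank i
decreasing_by exact G.rank_lt i a

theorem size_eq (A : G.V → ℕ) (i : G.V) :
    size G A i = A i + ∑ a, size G A (G.kid i a) := by
  rw [size]

theorem cert_size (A : G.V → ℕ) :
    Cert (k := k) (fun x => A x.1) (fun i _ => size G A i) := by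
  intro i u φ
  exact (size_eq A i).symm

theorem size_cnt (A : G.V → ℕ) (r : G.V) (lam : G.V → Fin k) :
    size G A r = ∑ i, cnt G i r * A i := by
  have h := dot_Mon (cert_size (k := k) A) lam r
  rw [dot_supp (Mon_supp lam r)] at h
  simp_rw [Mon_xl] at h
  exact h.symm

/-- the number of children of the rule `x` that are `(j, v)` -/
def ch (j : G.V) (v : Fin k) (x : Rule G k) : ℕ :=
  ∑ a, if G.kid x.1 a = j ∧ x.2.2 a = v then 1 else 0

/-- `1` if the head of the rule `x` is `(j, v)` -/
def hd (j : G.V) (v : Fin k) (x : Rule G k) : ℕ := if x.1 = j ∧ x.2.1 = v then 1 else 0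

theorem ch_le (j : G.V) (v : Fin k) (x : Rule G k) : ch j v x ≤ G.deg x.1 := by
  unfold ch
  refine (Finset.sum_le_card_nsmul _ _ 1 fun a _ => ?_).trans ?_
  · split <;> omega
  · simp

/-- the weight `deg + 1 + hd - ch` -/
def W1 (j : G.V) (v : Fin k) (x : Rule G k) : ℕ := G.deg x.1 + 1 + hd j v x - ch j v x

theorem W1_add (j : G.V) (v : Fin k) (x : Rule G k) :
    W1 j v x + ch j v x = G.deg x.1 + 1 + hd j v x := by
  have := ch_le j v x
  unfold W1
  omega

theorem cert_W1 (j : G.V) (v : Fin k) :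
    Cert (W1 (G := G) j v)
      (fun i u => size G (fun i => G.deg i + 1) i + if i = j ∧ u = v then 1 else 0) := by
  intro i u φ
  have h1 : W1 j v (⟨i, u, φ⟩ : Rule G k) + ch j v (⟨i, u, φ⟩ : Rule G k) =
      G.deg i + 1 + hd j v (⟨i, u, φ⟩ : Rule G k) := W1_add j v _
  have h2 : ch j v (⟨i, u, φ⟩ : Rule G k) = ∑ a, if G.kid i a = j ∧ φ a = v then 1 else 0 := rfl
  have h3 : hd j v (⟨i, u, φ⟩ : Rule G k) = if i = j ∧ u = v then 1 else 0 := rfl
  have h4 := size_eq (fun i => G.deg i + 1) i
  show W1 j v ⟨i, u, φ⟩ + ∑ a, (size G (fun i => G.deg i + 1) (G.kid i a) +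
    if G.kid i a = j ∧ φ a = v then 1 else 0) =
      size G (fun i => G.deg i + 1) i + if i = j ∧ u = v then 1 else 0
  rw [Finset.sum_add_distrib, ← h2, ← h3]
  omega

end Pool.Agent.TH679.PD
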