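import Pool.Agent.TH679.PD.Bfly

/-!
A short program with many registers for layered butterfly graphs.
-/

set_option autoImplicit false
set_option linter.unusedSectionVars false
set_option linter.unusedVariables false

namespace Pool.Agent.TH679.PD

open Finset
open Pool.Agent.H564R3.PW (Instr runs exec)
open Pool.Agent.W994.DE (Dag)
open Pool.Agent.W994.DE.Dag

section Blk

variable {R X ρ : Type} [CommSemiring R] [DecidableEq ρ]

theorem runs_append (w : X → R) (p p' : List (Instr R X ρ)) (V : ρ → R) :
    runs w (p ++ p') V = runs w p' (runs w p V) := by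
  unfold runs
  rw [List.foldl_append]

theorem runs_cons (w : X → R) (I : Instr R X ρ) (p : List (Instr R X ρ)) (V : ρ → R) :
    runs w (I :: p) V = runs w p (I.run w V) := rfl

theorem runs_nil (w : X → R) (V : ρ → R) : runs w ([] : List (Instr R X ρ)) V = V := rfl

/-- multiply the register `tmp` by the registers in the list -/
theorem muls_run (w : X → R) (tmp : ρ) : ∀ (l : List ρ), (∀ i ∈ l, i ≠ tmp) → ∀ V : ρ → R,
    runs w (l.map fun i => Instr.mul tmp tmp i) V =
      Function.update V tmp (V tmp * (l.map V).prod) := by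
  intro l
  induction l with
  | nil =>
    intro _ V
    simp [runs_nil]
  | cons i l ih =>
    intro h V
    rw [List.map_cons, runs_cons, ih fun j hj => h j (List.mem_cons_of_mem _ hj)]
    have h1 : (Instr.mul tmp tmp i : Instr R X ρ).run w V =
        Function.update V tmp (V tmp * V i) := rfl
    have h2 : l.map (Function.update V tmp (V tmp * V i)) = l.map V := by
      refine List.map_congr_left fun j hj => ?_
      exact Function.update_of_ne (h j (List.mem_cons_of_mem _ hj)) _ _
    rw [h1, h2, Function.update_self, Function.update_idem, List.map_cons, List.prod_cons,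
      mul_assoc]

variable {m k : ℕ}

/-- add the products for all `φ` in the list to the register `out` -/
def adds (x : (Fin m → Fin k) → X) (κ : Fin m → Fin k → ρ) (tmp out : ρ)
    (l : List (Fin m → Fin k)) : List (Instr R X ρ) :=
  l.flatMap fun φ => Instr.load tmp (x φ) ::
    (((List.finRange m).map fun s => κ s (φ s)).map fun i => Instr.mul tmp tmp i) ++
      [Instr.add out out tmp]

theorem adds_run (w : X → R) (x : (Fin m → Fin k) → X) (κ : Fin m → Fin k → ρ) {tmp out : ρ}
    (hto : tmp ≠ out) (hk1 : ∀ s v, κ s v ≠ tmp) (hk2 : ∀ s v, κ s v ≠ out) :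
    ∀ (l : List (Fin m → Fin k)) (V : ρ → R),
      runs w (adds x κ tmp out l) V out =
        V out + (l.map fun φ => w (x φ) * ∏ s, V (κ s (φ s))).sum ∧
      ∀ i, i ≠ tmp → i ≠ out → runs w (adds x κ tmp out l) V i = V i := by
  intro l
  induction l with
  | nil =>
    intro V
    simp [adds, runs_nil]
  | cons φ l ih =>
    intro V
    have h1 : adds (R := R) x κ tmp out (φ :: l) = (Instr.load tmp (x φ) ::
      (((List.finRange m).map fun s => κ s (φ s)).map fun i => Instr.mul tmp tmp i) ++
      [Instr.add out out tmp]) ++ adds x κ tmp out l := by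
      simp [adds]
    set V' : ρ → R := runs w (Instr.load tmp (x φ) ::
      (((List.finRange m).map fun s => κ s (φ s)).map fun i => Instr.mul tmp tmp i) ++
      [Instr.add out out tmp]) V with hV'
    have h2 : ((List.finRange m).map fun s => κ s (φ s)).map
        (Function.update V tmp (w (x φ))) = (List.finRange m).map fun s => V (κ s (φ s)) := by
      rw [List.map_map]
      refine List.map_congr_left fun s _ => ?_
      exact Function.update_of_ne (hk1 s _) _ _
    have h3 : V' = Function.update (Function.update V tmp (w (x φ) * ∏ s, V (κ s (φ s)))) out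
        (V out + w (x φ) * ∏ s, V (κ s (φ s))) := by
      rw [hV', List.cons_append, runs_cons, runs_append]
      have h4 : (Instr.load tmp (x φ) : Instr R X ρ).run w V = Function.update V tmp (w (x φ)) :=
        rfl
      rw [h4, muls_run w tmp _ (by
        intro i hi
        rw [List.mem_map] at hi
        obtain ⟨s, _, rfl⟩ := hi
        exact hk1 s _), h2, Function.update_self, Function.update_idem, runs_cons, runs_nil]
      have h5 : ((List.finRange m).map fun s => V (κ s (φ s))).prod = ∏ s, V (κ s (φ s)) := by
        rw [← List.ofFn_eq_map, List.prod_ofFn]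
      rw [h5]
      show Function.update _ out (_ + _) = _
      rw [Function.update_of_ne hto.symm, Function.update_self]
    obtain ⟨g1, g2⟩ := ih V'
    rw [h1, runs_append, ← hV']
    have hVk : ∀ s v, V' (κ s v) = V (κ s v) := by
      intro s v
      rw [h3, Function.update_of_ne (hk2 s v), Function.update_of_ne (hk1 s v)]
    constructor
    · rw [g1, List.map_cons, List.sum_cons, h3, Function.update_self, ← h3]
      simp_rw [hVk]
      rw [add_assoc]
    · intro i hi1 hi2
      rw [g2 i hi1 hi2, h3, Function.update_of_ne hi2, Function.update_of_ne hi1]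

/-- compute the value of one pair of a node and a letter -/
noncomputable def blk (x : (Fin m → Fin k) → X) (κ : Fin m → Fin k → ρ) (tmp out : ρ) :
    List (Instr R X ρ) :=
  Instr.const out 0 :: adds x κ tmp out (univ : Finset (Fin m → Fin k)).toList

theorem blk_run (w : X → R) (x : (Fin m → Fin k) → X) (κ : Fin m → Fin k → ρ) {tmp out : ρ}
    (hto : tmp ≠ out) (hk1 : ∀ s v, κ s v ≠ tmp) (hk2 : ∀ s v, κ s v ≠ out) (V : ρ → R) :
    runs w (blk x κ tmp out) V out = ∑ φ, w (x φ) * ∏ s, V (κ s (φ s)) ∧
      ∀ i, i ≠ tmp → i ≠ out → runs w (blk x κ tmp out) V i = V i := by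
  have h1 : (Instr.const out 0 : Instr R X ρ).run w V = Function.update V out 0 := rfl
  obtain ⟨g1, g2⟩ := adds_run w x κ hto hk1 hk2 (univ : Finset (Fin m → Fin k)).toList
    (Function.update V out 0)
  unfold blk
  rw [runs_cons, h1]
  constructor
  · rw [g1, Function.update_self, zero_add, Finset.sum_map_toList]
    refine Finset.sum_congr rfl fun φ _ => ?_
    congr 1
    exact Finset.prod_congr rfl fun s _ => Function.update_of_ne (hk2 s _) _ _
  · intro i hi1 hi2
    rw [g2 i hi1 hi2, Function.update_of_ne hi2]

theorem blk_length (x : (Fin m → Fin k) → X) (κ : Fin m → Fin k → ρ) (tmp out : ρ) :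
    (blk (R := R) x κ tmp out).length = k ^ m * (m + 2) + 1 := by
  unfold blk adds
  rw [List.length_cons, List.length_flatMap]
  have h1 : (fun φ : Fin m → Fin k => (Instr.load tmp (x φ) ::
    (((List.finRange m).map fun s => κ s (φ s)).map fun i => Instr.mul tmp tmp i) ++
      [Instr.add out out tmp] : List (Instr R X ρ)).length) = fun _ => m + 2 := by
    funext φ
    simp
  rw [h1, List.map_const', List.sum_replicate, Finset.length_toList, card_univ, Fintype.card_fun,
    Fintype.card_fin, Fintype.card_fin, smul_eq_mul]

end Blk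

section Level

variable {d H k : ℕ} [NeZero d]

/-- The registers: one for each letter and each node of two consecutive levels, and another one. -/
abbrev Reg (d k : ℕ) : Type := (Bool × (Fin d → Bool) × Fin k) ⊕ Unit

theorem card_Reg : Fintype.card (Reg d k) = 2 * 2 ^ d * k + 1 := by
  rw [Fintype.card_sum, Fintype.card_prod, Fintype.card_prod, Fintype.card_fun, Fintype.card_bool,
    Fintype.card_fin, Fintype.card_fin, Fintype.card_unit]
  ring

/-- the register for the letter `u` at the node `(t, a)` -/
def reg (t : ℕ) (a : Fin d → Bool) (u : Fin k) : Reg d k := Sum.inl (decide (t % 2 = 1), a, u)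

/-- the program for the value at the node `i` and the letter `u` -/
noncomputable def one (R : Type) [CommSemiring R] (i : (bfly d H).V) (u : Fin k) :
    List (Instr R (Rule (bfly d H) k) (Reg d k)) :=
  blk (fun φ => ⟨i, u, φ⟩)
    (fun s v => reg (i.1.val - 1) ((bfly d H).kid i s).2 v) (Sum.inr ()) (reg i.1.val i.2 u)

variable {R : Type} [CommSemiring R]

theorem one_run (w : Rule (bfly d H) k → R) (i : (bfly d H).V) (u : Fin k)
    (V : Reg d k → R)
    (hV : ∀ s v, V (reg (i.1.val - 1) ((bfly d H).kid i s).2 v) = deriv w ((bfly d H).kid i s) v) :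
    runs w (one R i u) V (reg i.1.val i.2 u) = deriv w i u ∧
      ∀ g, g ≠ Sum.inr () → g ≠ reg i.1.val i.2 u → runs w (one R i u) V g = V g := by
  obtain ⟨g1, g2⟩ := blk_run w (fun φ => (⟨i, u, φ⟩ : Rule (bfly d H) k))
    (fun s v => reg (i.1.val - 1) ((bfly d H).kid i s).2 v)
    (tmp := (Sum.inr () : Reg d k)) (out := reg i.1.val i.2 u)
    (by unfold reg; exact fun h => Sum.inr_ne_inl h)
    (by intro s v; unfold reg; exact fun h => Sum.inl_ne_inr h)
    (by
      intro s v h
      have h1 := fin_ite s
      unfold reg at h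
      rw [Sum.inl.injEq, Prod.mk.injEq] at h
      have h2 := h.1
      have h3 : (i.1.val - 1) % 2 = 1 ↔ i.1.val % 2 = 1 := decide_eq_decide.1 h2
      omega) V
  refine ⟨?_, g2⟩
  have h1 : runs w (one R i u) V (reg i.1.val i.2 u) = ∑ φ, w ⟨i, u, φ⟩ *
      ∏ s, V (reg (i.1.val - 1) ((bfly d H).kid i s).2 (φ s)) := g1
  rw [h1, deriv_eq]
  refine Finset.sum_congr rfl fun φ _ => ?_
  congr 1
  exact Finset.prod_congr rfl fun s _ => hV s (φ s)

/-- the program for a list of pairs of a word and a letter, at the level `t` -/
noncomputable def lev (R : Type) [CommSemiring R] (t : ℕ) (ht : t < H + 1)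
    (l : List ((Fin d → Bool) × Fin k)) : List (Instr R (Rule (bfly d H) k) (Reg d k)) :=
  l.flatMap fun z => one R (nd t ht z.1) z.2

theorem lev_run (w : Rule (bfly d H) k → R) (t : ℕ) (ht : t < H + 1) :
    ∀ (l : List ((Fin d → Bool) × Fin k)) (V : Reg d k → R),
      (∀ (h0 : t ≠ 0) (a : Fin d → Bool) (v : Fin k), V (reg (t - 1) a v) =
        deriv w (nd (t - 1) (by omega) a) v) →
      (∀ z ∈ l, runs w (lev R t ht l) V (reg t z.1 z.2) = deriv w (nd t ht z.1) z.2) ∧
      ∀ g, g ≠ Sum.inr () → (∀ z ∈ l, g ≠ reg t z.1 z.2) → runs w (lev R t ht l) V g = V g := by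
  intro l
  induction l with
  | nil =>
    intro V _
    refine ⟨fun z hz => absurd hz (List.not_mem_nil), fun g _ _ => rfl⟩
  | cons z l ih =>
    intro V hV
    have h1 : lev R t ht (z :: l) = one R (nd t ht z.1) z.2 ++ lev R t ht l := by
      simp [lev]
    obtain ⟨g1, g2⟩ := one_run w (nd t ht z.1) z.2 V (by
      intro s v
      have h2 := fin_ite s
      have h3 := hV h2.1 ((bfly d H).kid (nd t ht z.1) s).2 v
      exact h3)
    set V' := runs w (one R (nd t ht z.1) z.2) V with hV'
    have hV2 : ∀ (h0 : t ≠ 0) (a : Fin d → Bool) (v : Fin k), V' (reg (t - 1) a v) =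
        deriv w (nd (t - 1) (by omega) a) v := by
      intro h0 a v
      rw [← hV h0 a v]
      refine g2 _ ?_ ?_
      · unfold reg
        exact fun h => Sum.inl_ne_inr h
      · intro h
        unfold reg at h
        rw [Sum.inl.injEq, Prod.mk.injEq] at h
        have h3 : (t - 1) % 2 = 1 ↔ t % 2 = 1 := decide_eq_decide.1 h.1
        omega
    obtain ⟨k1, k2⟩ := ih V' hV2
    rw [h1]
    constructor
    · intro y hy
      rw [runs_append, ← hV']
      by_cases hyl : y ∈ l
      · exact k1 y hyl
      · rw [List.mem_cons] at hy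
        rcases hy with hy | hy
        · subst hy
          rw [k2 (reg t y.1 y.2) (by unfold reg; exact fun h => Sum.inl_ne_inr h) ?_]
          · exact g1
          · intro z hz h
            unfold reg at h
            rw [Sum.inl.injEq, Prod.mk.injEq, Prod.mk.injEq] at h
            apply hyl
            have : y = z := Prod.ext h.2.1 h.2.2
            rw [this]
            exact hz
        · exact absurd hy hyl
    · intro g hg1 hg2
      rw [runs_append, ← hV', k2 g hg1 fun z' hz' => hg2 z' (List.mem_cons_of_mem _ hz')]
      exact g2 g hg1 (hg2 z List.mem_cons_self)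

/-- the program for the levels below `t` -/
noncomputable def prg (R : Type) [CommSemiring R] (d H k : ℕ) [NeZero d] : (t : ℕ) → t ≤ H + 1 →
    List (Instr R (Rule (bfly d H) k) (Reg d k))
  | 0, _ => []
  | t + 1, ht => prg R d H k t (by omega) ++
      lev R t (by omega) (univ : Finset ((Fin d → Bool) × Fin k)).toList

theorem prg_run (w : Rule (bfly d H) k → R) : ∀ (t : ℕ) (ht : t + 1 ≤ H + 1)
    (a : Fin d → Bool) (v : Fin k),
      exec w (prg R d H k (t + 1) ht) (reg t a v) = deriv w (nd t (by omega) a) v := by
  intro t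
  induction t with
  | zero =>
    intro ht a v
    unfold exec
    rw [prg, runs_append]
    exact (lev_run w 0 (by omega) _ _ (fun h0 => absurd rfl h0)).1 (a, v)
      (Finset.mem_toList.2 (mem_univ _))
  | succ t ih =>
    intro ht a v
    unfold exec
    rw [prg, runs_append]
    refine (lev_run w (t + 1) (by omega) _ _ ?_).1 (a, v) (Finset.mem_toList.2 (mem_univ _))
    intro _ a' v'
    exact ih (by omega) a' v'

theorem one_length (hk : 1 ≤ k) (i : (bfly d H).V) (u : Fin k) :
    (one R i u).length ≤ 5 * k ^ (bfly d H).deg i := by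
  unfold one
  rw [blk_length]
  have h1 : (bfly d H).deg i ≤ 2 := by
    show (if i.1.val = 0 then 0 else 2) ≤ 2
    split_ifs <;> omega
  have h2 : 1 ≤ k ^ (bfly d H).deg i := Nat.one_le_pow _ _ hk
  calc k ^ (bfly d H).deg i * ((bfly d H).deg i + 2) + 1
      ≤ k ^ (bfly d H).deg i * 4 + k ^ (bfly d H).deg i :=
        add_le_add (Nat.mul_le_mul_left _ (by omega)) h2
    _ = _ := by ring

theorem lev_length (hk : 1 ≤ k) (t : ℕ) (ht : t < H + 1) (l : List ((Fin d → Bool) × Fin k)) :
    (lev R t ht l).length ≤ 5 * (if t = 0 then 1 else k ^ 2) * l.length := by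
  induction l with
  | nil => simp [lev]
  | cons z l ih =>
    have h1 : lev R t ht (z :: l) = one R (nd t ht z.1) z.2 ++ lev R t ht l := by
      simp [lev]
    rw [h1, List.length_append, List.length_cons, mul_add, mul_one, add_comm]
    refine add_le_add ih ?_
    refine (one_length hk _ _).trans (Nat.mul_le_mul_left _ ?_)
    have h2 : (bfly d H).deg (nd t ht z.1) = if t = 0 then 0 else 2 := rfl
    rw [h2]
    split_ifs
    · rw [pow_zero]
    · exact le_rfl

theorem prg_length (hk : 1 ≤ k) : ∀ (t : ℕ) (ht : t + 1 ≤ H + 1),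
    (prg R d H k (t + 1) ht).length ≤ 5 * (2 ^ d * k * (1 + t * k ^ 2)) := by
  intro t
  have hc : (univ : Finset ((Fin d → Bool) × Fin k)).toList.length = 2 ^ d * k := by
    rw [Finset.length_toList, card_univ, Fintype.card_prod, Fintype.card_fun, Fintype.card_bool,
      Fintype.card_fin, Fintype.card_fin]
  induction t with
  | zero =>
    intro ht
    rw [prg, List.length_append, prg, List.length_nil, zero_add]
    refine (lev_length hk 0 (by omega) _).trans ?_
    rw [hc, if_pos rfl]
    exact le_of_eq (by ring)
  | succ t ih =>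
    intro ht
    rw [prg, List.length_append]
    refine (add_le_add (ih (by omega)) (lev_length hk (t + 1) (by omega) _)).trans ?_
    rw [hc, if_neg (by omega)]
    exact le_of_eq (by ring)

theorem card_Rule : Fintype.card (Rule (bfly d H) k) = 2 ^ d * k * (1 + H * k ^ 2) := by
  have h1 : Fintype.card (Rule (bfly d H) k) =
      ∑ i : Fin (H + 1) × (Fin d → Bool), k * k ^ (if i.1.val = 0 then 0 else 2) := by
    rw [Fintype.card_sigma]
    refine Finset.sum_congr rfl fun i _ => ?_
    rw [Fintype.card_prod, Fintype.card_fun, Fintype.card_fin, Fintype.card_fin]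
    rfl
  rw [h1, Fintype.sum_prod_type]
  have h2 : Fintype.card (Fin d → Bool) = 2 ^ d := by
    rw [Fintype.card_fun, Fintype.card_bool, Fintype.card_fin]
  rw [Fin.sum_univ_succ]
  simp only [Fin.val_zero, Fin.val_succ, if_true, Nat.add_eq_zero_iff, one_ne_zero, and_false,
    if_false, Finset.sum_const, card_univ, Fintype.card_fin, smul_eq_mul, pow_zero, h2]
  ring

end Level

end Pool.Agent.TH679.PD
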